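import Mathlib

/-!
Proof trees of NAND networks.
-/

namespace Pool.Agent.MP_6b3410_lc.H75

/-- `Cert a b x u β L`: on input `x` there is a proof tree of the claim that the node `u` (an input
variable or a NAND gate with children `a g`, `b g`) has value `β`, and `L` lists the variables at
its leaves, with repetitions. -/
inductive Cert {V : Type} {s : ℕ} (a b : Fin s → V ⊕ Fin s) (x : V → Bool) :
    V ⊕ Fin s → Bool → List V → Prop
  | inp (v : V) : Cert a b x (Sum.inl v) (x v) [v]
  | left (g : Fin s) (L : List V) : Cert a b x (a g) false L → Cert a b x (Sum.inr g) true L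
  | right (g : Fin s) (L : List V) : Cert a b x (b g) false L → Cert a b x (Sum.inr g) true L
  | both (g : Fin s) (L M : List V) : Cert a b x (a g) true L → Cert a b x (b g) true M →
      Cert a b x (Sum.inr g) false (L ++ M)
  | same (g : Fin s) (L : List V) : a g = b g → Cert a b x (a g) true L →
      Cert a b x (Sum.inr g) false L

end Pool.Agent.MP_6b3410_lc.H75
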