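import Mathlib
import Pool.Agent.MP_6b3410_lc.H75.Defs
import Pool.Agent.MP_6b3410_lc.H19.Proj

/-!
Statements of the steps of the lower bound for networks with read-`k` proof trees.
-/

namespace Pool.Agent.MP_6b3410_lc.H75

open Classical

/-- every point of `A` has a certificate of at most `l` coordinates (a DNF of width `l`) -/
def Narrow {n : ℕ} (l : ℕ) (A : Set (Fin n → Bool)) : Prop :=
  ∀ z ∈ A, ∃ S : Finset (Fin n), S.card ≤ l ∧ ∀ z' : Fin n → Bool, (∀ i ∈ S, z' i = z i) → z' ∈ A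

/-- `X` contains an embedded rectangle with both sides of size at least `K` -/
def HasRect {n : ℕ} (X : Set (Fin n → Bool)) (K : ℕ) : Prop :=
  ∃ (F G : Finset (Fin n)) (w : Fin n → Bool) (R₁ R₂ : Finset (Fin n → Bool)),
    Disjoint F G ∧ K ≤ R₁.card ∧ K ≤ R₂.card ∧
    (∀ u ∈ R₁, ∀ i, i ∉ F → u i = w i) ∧ (∀ v ∈ R₂, ∀ i, i ∉ G → v i = w i) ∧
    ∀ u ∈ R₁, ∀ v ∈ R₂, (fun i => if i ∈ F then u i else v i) ∈ X

/-- a polynomial of degree four over the field with two elements -/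
def poly {n : ℕ} (c : Fin n × Fin n × Fin n × Fin n → Bool) (z : Fin n → Bool) : Bool :=
  decide (Odd (Finset.univ.filter fun t : Fin n × Fin n × Fin n × Fin n =>
    c t = true ∧ z t.1 = true ∧ z t.2.1 = true ∧ z t.2.2.1 = true ∧ z t.2.2.2 = true).card)

/-- a projection: every variable of `V` becomes a literal or a constant -/
def app {V : Type} {n : ℕ} (pr : V → (Fin n × Bool) ⊕ Bool) (z : Fin n → Bool) : V → Bool :=
  fun e => Sum.elim (fun p : Fin n × Bool => z p.1 == p.2) id (pr e)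

/-- M6: polynomials without large monochromatic embedded rectangles -/
def HardStmt : Prop :=
  ∀ γ : ℝ, 0 < γ → ∃ n₀ : ℕ, ∀ n : ℕ, n₀ ≤ n →
    ∃ (c : Fin n × Fin n × Fin n × Fin n → Bool) (K : ℕ), (K : ℝ) ≤ Real.exp (γ * n) ∧
      ∀ β : Bool, ¬ HasRect {z | poly c z = β} K

/-- M7: such a polynomial is a projection of Hamiltonicity using every variable on four edges -/
def GadgetStmt : Prop :=
  ∃ C : ℕ, ∀ n N : ℕ, 1 ≤ n → C * n ^ 4 ≤ N →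
    ∀ (c : Fin n × Fin n × Fin n × Fin n → Bool) (β : Bool),
      ∃ pr : H19.Edge N → (Fin n × Bool) ⊕ Bool,
        (∀ i, (Finset.univ.filter fun e => ∃ σ, pr e = Sum.inl (i, σ)).card ≤ 4) ∧
        ∀ z, H19.Ham (app pr z) ↔ poly c z = β

/-- M8: cutting proof trees into `r` pieces -/
def DecompStmt : Prop :=
  ∀ (V : Type) [Fintype V] [DecidableEq V] (s : ℕ) (a b : Fin s → V ⊕ Fin s) (o : Fin s)
    (n d k r l : ℕ) (pr : V → (Fin n × Bool) ⊕ Bool) (f : Set (Fin n → Bool)),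
    0 < r → 0 < l → 2 * (d * k * n) ≤ (r + 1) * l →
    (∀ i, (Finset.univ.filter fun e => ∃ σ, pr e = Sum.inl (i, σ)).card ≤ d) →
    (∀ z L, Cert a b (app pr z) (Sum.inr o) true L → z ∈ f) →
    (∀ z ∈ f, ∃ L, Cert a b (app pr z) (Sum.inr o) true L ∧ ∀ e, L.count e ≤ k) →
    ∃ A : Fin r → Set (Fin n → Bool), (∀ j, Narrow l (A j)) ∧ (⋂ j, A j) ⊆ f ∧
      f.ncard ≤ (2 * (Fintype.card V + s)) ^ r * (⋂ j, A j).ncard

/-- harmonic sums, from the top -/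
noncomputable def hs (r t : ℕ) : ℝ := ∑ t' ∈ Finset.range t, 1 / ((r : ℝ) - t')

/-- M3: the differential inequality and the choice of the parameters -/
def ChainStmt : Prop :=
  ∀ k : ℕ, 1 ≤ k → ∃ (r g : ℕ) (F ε : ℝ), 8 ≤ F ∧ 0 < ε ∧ ε ≤ 1 / 2 ∧ 1 ≤ g ∧ g ≤ r ∧
    2000 * g * k * (1 + Real.log r) * (F + 1) ≤ r ∧
    ∀ Y c : ℕ → ℝ, 1 / 8 ≤ Y 0 → (∀ t, t ≤ r → Y t ≤ 1) →
      (∀ t, t < r → (1 - 2 * ε) * Y t - ε * Real.exp (-F) - 2 * c t / ((r : ℝ) - t) ≤ Y (t + 1)) →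
      (∀ t, t < r → c t ≤ 2 * k) →
      (∀ t, t < r → ∀ F' : ℝ, 0 ≤ F' → c t * hs r t ≤ F' * Y t + Real.exp (-F')) →
      Real.exp (-F) ≤ Y (r - g)

/-- the rectangle theorem -/
def RectStmt : Prop :=
  ∀ k : ℕ, ∃ (r : ℕ) (δ : ℝ) (n₀ : ℕ), 0 < r ∧ 0 < δ ∧ ∀ n : ℕ, n₀ ≤ n → ∀ l : ℕ, r * l ≤ k * n →
    ∀ A : Fin r → Set (Fin n → Bool), (∀ j, Narrow l (A j)) →
      (2 : ℝ) ^ n * Real.exp (-(δ * n)) ≤ (⋂ j, A j).ncard →
      ∀ K : ℕ, (K : ℝ) ≤ Real.exp (δ * n) → HasRect (⋂ j, A j) K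

end Pool.Agent.MP_6b3410_lc.H75
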