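import Mathlib
import Pool.Agent.MP_6b3410_lc.H75.Spec

/-!
Statements of the steps of the bound `exp (c n)`: a cubic form of linear size on a good code has
no dense monochromatic embedded rectangle.
-/

namespace Pool.Agent.MP_6b3410_lc.H75

open Classical

/-- `X` contains an embedded rectangle whose first side is dense -/
def HasRect2 {n : ℕ} (X : Set (Fin n → Bool)) (K : ℝ) : Prop :=
  ∃ (F G : Finset (Fin n)) (w : Fin n → Bool) (R₁ R₂ : Finset (Fin n → Bool)),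
    Disjoint F G ∧ K * (32 / 17) ^ F.card ≤ R₁.card ∧ 2 ^ F.card ≤ R₂.card ∧
    (∀ u ∈ R₁, ∀ i, i ∉ F → u i = w i) ∧ (∀ v ∈ R₂, ∀ i, i ∉ G → v i = w i) ∧
    ∀ u ∈ R₁, ∀ v ∈ R₂, (fun i => if i ∈ F then u i else v i) ∈ X

/-- bits as elements of the field with two elements -/
def tz {n : ℕ} (x : Fin n → Bool) : Fin n → ZMod 2 := fun i => if x i = true then 1 else 0

/-- encoders -/
abbrev Encoder (n M : ℕ) : Type := (Fin n → ZMod 2) →ₗ[ZMod 2] (Fin M → ZMod 2)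

/-- lists of monomials of degree three with coefficients -/
abbrev Mons (M T : ℕ) : Type := Fin T → (Fin M × Fin M × Fin M) × ZMod 2

/-- relative distance at least `1 / c₀` -/
def Dist {n M : ℕ} (c₀ : ℕ) (Enc : Encoder n M) : Prop :=
  ∀ x, x ≠ 0 → M ≤ c₀ * (Finset.univ.filter fun p => Enc x p ≠ 0).card

/-- the cubic form -/
def cub {n M T : ℕ} (Enc : Encoder n M) (ξ : Mons M T) (x : Fin n → ZMod 2) : ZMod 2 :=
  ∑ t, (ξ t).2 * (Enc x (ξ t).1.1 * Enc x (ξ t).1.2.1 * Enc x (ξ t).1.2.2)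

/-- the permanent of the three vectors at three positions -/
def per {M : ℕ} (y z u : Fin M → ZMod 2) (p : Fin M × Fin M × Fin M) : ZMod 2 :=
  y p.1 * z p.2.1 * u p.2.2 + y p.1 * u p.2.1 * z p.2.2 + z p.1 * y p.2.1 * u p.2.2 +
    z p.1 * u p.2.1 * y p.2.2 + u p.1 * y p.2.1 * z p.2.2 + u p.1 * z p.2.1 * y p.2.2

/-- the third derivative of the cubic form -/
def tri {n M T : ℕ} (Enc : Encoder n M) (ξ : Mons M T) (a b v : Fin n → ZMod 2) : ZMod 2 :=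
  ∑ t, (ξ t).2 * per (Enc a) (Enc b) (Enc v) (ξ t).1

/-- the sign character -/
def chi (a : ZMod 2) : ℝ := if a = 0 then 1 else -1

/-- the vectors supported on `F` -/
noncomputable def cube {n : ℕ} (F : Finset (Fin n)) : Finset (Fin n → ZMod 2) :=
  Finset.univ.filter fun a => ∀ i, i ∉ F → a i = 0

/-- all large blocks of all derivatives have large rank -/
def Good {n M T : ℕ} (Enc : Encoder n M) (ξ : Mons M T) (h₀ : ℕ) : Prop :=
  ∀ (F₁ F₂ : Finset (Fin n)) (v : Fin n → ZMod 2), Disjoint F₁ F₂ → F₁.card = F₂.card →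
    h₀ ≤ F₁.card → v ≠ 0 → (∀ i ∈ F₁, v i = 0) → (∀ i ∈ F₂, v i = 0) →
    (∑ a ∈ cube F₁, ∑ b ∈ cube F₂, chi (tri Enc ξ a b v)) ^ 2 ≤ 8 ^ F₁.card

/-- the encoder is defined by sparse parity checks -/
def Sparse {n : ℕ} (Enc : Encoder n (2 * n)) : Prop :=
  ∃ (φ : Fin (2 * n) × Fin 7 → Fin n) (σ : Fin n → Fin (2 * n)) (Z : Finset (Fin (2 * n))),
    ∀ x z, z = Enc x ↔ (∀ j, ∑ e ∈ Finset.univ.filter (fun e => φ e = j), z e.1 = 0) ∧
      (∀ i, z (σ i) = x i) ∧ ∀ p ∈ Z, z p = 0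

/-- good codes with sparse parity checks exist -/
def CodeStmt : Prop :=
  ∃ c₀ : ℕ, 0 < c₀ ∧ ∀ n : ℕ, 0 < n → ∃ Enc : Encoder n (2 * n), Dist c₀ Enc ∧ Sparse Enc

/-- large rank excludes dense rectangles -/
def HardAStmt : Prop :=
  ∀ (n M T : ℕ) (Enc : Encoder n M) (ξ : Mons M T) (h₀ : ℕ) (K : ℝ) (β : ZMod 2),
    Good Enc ξ h₀ → 3 < K → (17 / 16) ^ (2 * h₀ + 1) < K →
    ¬ HasRect2 {x | cub Enc ξ (tz x) = β} K

/-- random monomials give large rank -/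
def HardBStmt : Prop :=
  ∀ c₀ : ℕ, 0 < c₀ → ∃ C : ℕ, ∀ γ : ℝ, 0 < γ → ∃ n₀ : ℕ, ∀ n : ℕ, n₀ ≤ n →
    ∀ (M : ℕ) (Enc : Encoder n M) (h₀ : ℕ), 0 < M → Dist c₀ Enc → γ * n ≤ h₀ →
      ∃ ξ : Mons M (C * n), Good Enc ξ h₀

/-- the cubic form is a projection of Hamiltonicity on linearly many vertices -/
def Gadget2Stmt : Prop :=
  ∃ C : ℕ, ∀ n T N : ℕ, 1 ≤ n → C * (n + T) ≤ N →
    ∀ (Enc : Encoder n (2 * n)) (ξ : Mons (2 * n) T) (β : ZMod 2), Sparse Enc →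
      ∃ pr : H19.Edge N → (Fin n × Bool) ⊕ Bool,
        (∀ i, (Finset.univ.filter fun e => ∃ σ, pr e = Sum.inl (i, σ)).card ≤ 4) ∧
        ∀ x, H19.Ham (app pr x) ↔ cub Enc ξ (tz x) = β

/-- the rectangle theorem, dense form -/
def Rect2Stmt : Prop :=
  ∀ k : ℕ, ∃ (r : ℕ) (δ : ℝ) (n₀ : ℕ), 0 < r ∧ 0 < δ ∧ ∀ n : ℕ, n₀ ≤ n → ∀ l : ℕ, r * l ≤ k * n →
    ∀ A : Fin r → Set (Fin n → Bool), (∀ j, Narrow l (A j)) →
      (2 : ℝ) ^ n * Real.exp (-(δ * n)) ≤ (⋂ j, A j).ncard →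
      HasRect2 (⋂ j, A j) (Real.exp (δ * n))

end Pool.Agent.MP_6b3410_lc.H75
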