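import Mathlib
import Pool.Agent.MP_6b3410_lc.H75.Spec

/-!
Averaging over subsets of a given size.
-/

namespace Pool.Agent.MP_6b3410_lc.H75

open Finset

variable {α : Type*} [DecidableEq α]

lemma updown (U : Finset α) (t : ℕ) (g : Finset α → α → ℝ) :
    ∑ A ∈ U.powersetCard (t + 1), ∑ a ∈ A, g (A.erase a) a =
      ∑ B ∈ U.powersetCard t, ∑ a ∈ U \ B, g B a := by
  rw [sum_sigma', sum_sigma']
  refine sum_bij' (fun p _ => ⟨p.1.erase p.2, p.2⟩) (fun p _ => ⟨insert p.2 p.1, p.2⟩) ?_ ?_ ?_ ?_ ?_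
  · rintro ⟨A, a⟩ h
    simp only [mem_sigma, mem_powersetCard, mem_sdiff] at h ⊢
    exact ⟨⟨(erase_subset _ _).trans h.1.1, by rw [card_erase_of_mem h.2, h.1.2]; rfl⟩,
      h.1.1 h.2, notMem_erase _ _⟩
  · rintro ⟨B, a⟩ h
    simp only [mem_sigma, mem_powersetCard, mem_sdiff] at h ⊢
    exact ⟨⟨insert_subset h.2.1 h.1.1, by rw [card_insert_of_notMem h.2.2, h.1.2]⟩,
      mem_insert_self _ _⟩
  · rintro ⟨A, a⟩ h
    simp only [mem_sigma] at h
    simp only [insert_erase h.2]
  · rintro ⟨B, a⟩ h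
    simp only [mem_sigma, mem_sdiff] at h
    simp only [erase_insert h.2.2]
  · intro _ _; rfl

lemma choose_succ_real (N t : ℕ) (ht : t ≤ N) :
    (N.choose (t + 1) : ℝ) * (t + 1) = N.choose t * ((N : ℝ) - t) := by
  have := Nat.choose_succ_right_eq N t
  rw [← Nat.cast_sub ht]
  exact_mod_cast this

lemma sum_sub_mean (U : Finset α) (μ : α → ℝ) (t : ℕ) (ht : t ≤ U.card) :
    (∑ D ∈ U.powersetCard t, ∑ a ∈ D, μ a) * U.card = U.card.choose t * t * ∑ a ∈ U, μ a := by
  induction t with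
  | zero => simp
  | succ t ih =>
    have h1 := updown U t fun _ a => μ a
    have h2 : ∑ B ∈ U.powersetCard t, ∑ a ∈ U \ B, μ a =
        U.card.choose t * ∑ a ∈ U, μ a - ∑ B ∈ U.powersetCard t, ∑ a ∈ B, μ a := by
      rw [sum_congr rfl (g := fun B => ∑ a ∈ U, μ a - ∑ a ∈ B, μ a) fun B hB =>
        sum_sdiff_eq_sub (mem_powersetCard.1 hB).1, sum_sub_distrib, sum_const, card_powersetCard,
        nsmul_eq_mul]
    rw [h1, h2, sub_mul, ih (by omega), Nat.cast_succ, choose_succ_real _ _ (by omega)]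
    ring

lemma exists_block (U : Finset α) (μ : α → ℝ) (t : ℕ) (ht : t ≤ U.card) :
    ∃ D ⊆ U, D.card = t ∧ (∑ a ∈ D, μ a) * U.card ≤ t * ∑ a ∈ U, μ a := by
  obtain ⟨D, hD, h⟩ := exists_le_of_sum_le (s := U.powersetCard t)
    (f := fun D => (∑ a ∈ D, μ a) * U.card) (g := fun _ => t * ∑ a ∈ U, μ a)
    (powersetCard_nonempty.2 ht) (by
      rw [← sum_mul, sum_sub_mean U μ t ht, sum_const, card_powersetCard, nsmul_eq_mul, mul_assoc])
  exact ⟨D, (mem_powersetCard.1 hD).1, (mem_powersetCard.1 hD).2, h⟩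

/-- the choice of the scale -/
lemma scale (U : Finset α) (Φ : Finset α → ℝ) (μ : α → ℝ) (B η D : ℝ) (m₀ m₁ : ℕ) (hη : 0 < η)
    (hD : 0 < D) (hm₀ : 1 ≤ m₀) (hm : m₀ ≤ m₁) (hm₁ : m₁ ≤ U.card)
    (hΦ : ∀ E, 0 ≤ Φ E ∧ Φ E ≤ B * E.card)
    (hT : ∀ E, 0 ≤ ∑ i ∈ E, (Φ E - Φ (E.erase i)) - Φ E) (hμ : ∀ i, 0 ≤ μ i)
    (hμ' : ∑ i ∈ U, μ i ≤ D * U.card) (hB : 2 * B < η * (Real.log m₁ - Real.log m₀)) :
    ∃ E ⊆ U, m₀ < E.card ∧ E.card ≤ m₁ ∧ ∑ i ∈ E, (Φ E - Φ (E.erase i)) - Φ E ≤ η * E.card ∧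
      ∑ i ∈ E, μ i ≤ 2 * D * E.card := by
  by_contra hcon
  push Not at hcon
  set N := U.card with hN
  let h : ℕ → ℝ := fun m => ∑ E ∈ U.powersetCard m, Φ E
  let ψ : ℕ → ℝ := fun m => h m / (m * N.choose m)
  have hstep : ∀ m, m₀ ≤ m → m < m₁ → ψ m + η / 2 * (Real.log (m + 1 : ℕ) - Real.log m) ≤ ψ (m + 1) := by
    intro m h1 h2
    have hm0 : (0 : ℝ) < m := by exact_mod_cast (show 0 < m by omega)
    have hN0 : (0 : ℝ) < N := by exact_mod_cast (show 0 < N by omega)
    have hc0 : (0 : ℝ) < N.choose m := by exact_mod_cast Nat.choose_pos (by omega)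
    have hc1 : (0 : ℝ) < N.choose (m + 1) := by exact_mod_cast Nat.choose_pos (by omega)
    have hcs := choose_succ_real N m (by omega)
    have e1 : ∑ E ∈ U.powersetCard (m + 1), (∑ i ∈ E, (Φ E - Φ (E.erase i)) - Φ E) =
        m * h (m + 1) - (N - m) * h m := by
      have e2 := updown U m fun B _ => Φ B
      have e3 : ∑ B ∈ U.powersetCard m, ∑ _a ∈ U \ B, Φ B = (N - m) * h m := by
        simp only [h]
        rw [mul_sum]
        refine sum_congr rfl fun B hB => ?_
        rw [mem_powersetCard] at hB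
        rw [sum_const, card_sdiff_of_subset hB.1, hB.2, nsmul_eq_mul, Nat.cast_sub (by omega)]
      rw [← e3, ← e2]
      simp only [h]
      rw [mul_sum, ← sum_sub_distrib]
      refine sum_congr rfl fun E hE => ?_
      rw [sum_sub_distrib, sum_const, (mem_powersetCard.1 hE).2, nsmul_eq_mul]
      push_cast; ring
    have e4 := sum_sub_mean U μ (m + 1) (by omega)
    have e5 : ∑ E ∈ U.powersetCard (m + 1), η * D * (m + 1) * 2 ≤
        ∑ E ∈ U.powersetCard (m + 1),
          (2 * D * (∑ i ∈ E, (Φ E - Φ (E.erase i)) - Φ E) + η * ∑ i ∈ E, μ i) := by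
      refine sum_le_sum fun E hE => ?_
      rw [mem_powersetCard] at hE
      have e6 := hT E
      have e7 : 0 ≤ ∑ i ∈ E, μ i := sum_nonneg fun i _ => hμ i
      by_cases e8 : ∑ i ∈ E, (Φ E - Φ (E.erase i)) - Φ E ≤ η * E.card
      · have e9 := hcon E hE.1 (by omega) (by omega) e8
        rw [hE.2] at e9
        push_cast at e9
        nlinarith [mul_nonneg hD.le e6, mul_lt_mul_of_pos_left e9 hη]
      · rw [hE.2, not_le] at e8
        push_cast at e8
        nlinarith [mul_nonneg hη.le e7, mul_lt_mul_of_pos_left e8 hD]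
    rw [sum_const, sum_add_distrib, ← mul_sum, ← mul_sum, e1, card_powersetCard, nsmul_eq_mul,
      ← hN] at e5
    have e6 : ∑ E ∈ U.powersetCard (m + 1), ∑ i ∈ E, μ i ≤ N.choose (m + 1) * (m + 1) * D := by
      refine le_of_mul_le_mul_right ?_ hN0
      rw [e4]
      push_cast
      rw [mul_assoc _ D]
      gcongr
    have e7 : η / 2 * ((m + 1) * N.choose (m + 1)) ≤ m * h (m + 1) - (N - m) * h m := by
      refine le_of_mul_le_mul_left ?_ (show 0 < 2 * D by positivity)
      nlinarith [mul_le_mul_of_nonneg_left e6 hη.le]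
    have e8 : Real.log (m + 1 : ℕ) - Real.log m ≤ 1 / m := by
      rw [← Real.log_div (by positivity) hm0.ne']
      refine (Real.log_le_sub_one_of_pos (by positivity)).trans (le_of_eq ?_)
      push_cast; field_simp; ring
    have e9 : ψ (m + 1) - ψ m = (m * h (m + 1) - (N - m) * h m) / (m * ((m + 1) * N.choose (m + 1))) := by
      simp only [ψ]
      push_cast
      have hNm : (0 : ℝ) < N - m := by
        have : (m : ℝ) < N := by exact_mod_cast (show m < N by omega)
        linarith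
      rw [show (N.choose m : ℝ) = N.choose (m + 1) * (m + 1) / (N - m) by
        rw [hcs]; field_simp]
      field_simp
    have e10 : η / 2 * (1 / m) ≤ ψ (m + 1) - ψ m := by
      rw [e9, le_div_iff₀ (by positivity)]
      refine le_trans (le_of_eq ?_) e7
      field_simp
    nlinarith [mul_le_mul_of_nonneg_left e8 (show 0 ≤ η / 2 by positivity)]
  have hind : ∀ m, m₀ ≤ m → m ≤ m₁ → ψ m₀ + η / 2 * (Real.log m - Real.log m₀) ≤ ψ m := by
    intro m h1
    induction m, h1 using Nat.le_induction with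
    | base => intro _; simp
    | succ m h1 ih =>
      intro h2
      have := ih (by omega)
      have := hstep m h1 (by omega)
      linarith
  have h1 := hind m₁ hm le_rfl
  have h2 : 0 ≤ ψ m₀ := div_nonneg (sum_nonneg fun E _ => (hΦ E).1) (by positivity)
  have h3 : ψ m₁ ≤ B := by
    have hm0 : (0 : ℝ) < m₁ := by exact_mod_cast (show 0 < m₁ by omega)
    have hc0 : (0 : ℝ) < N.choose m₁ := by exact_mod_cast Nat.choose_pos (by omega)
    simp only [ψ]
    rw [div_le_iff₀ (by positivity)]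
    calc h m₁ ≤ ∑ E ∈ U.powersetCard m₁, B * m₁ := sum_le_sum fun E hE => by
          have := (hΦ E).2
          rwa [(mem_powersetCard.1 hE).2] at this
      _ = _ := by rw [sum_const, card_powersetCard, nsmul_eq_mul]; ring
  linarith

omit [DecidableEq α] in
/-- the number of small subsets -/
lemma card_small (E : Finset α) (c θ : ℝ) (hθ : 0 < θ) (hθ1 : θ ≤ 1) :
    ((E.powerset.filter fun F => (F.card : ℝ) ≤ c).card : ℝ) ≤
      Real.exp (θ * E.card - c * Real.log θ) := by
  have hl : Real.log θ ≤ 0 := Real.log_nonpos hθ.le hθ1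
  calc _ = ∑ _F ∈ E.powerset.filter fun F => (F.card : ℝ) ≤ c, (1 : ℝ) := by simp
    _ ≤ ∑ F ∈ E.powerset.filter fun F => (F.card : ℝ) ≤ c,
          θ ^ F.card * Real.exp (-(c * Real.log θ)) := by
        refine sum_le_sum fun F hF => ?_
        have := (mem_filter.1 hF).2
        rw [← Real.exp_log (pow_pos hθ F.card), Real.log_pow, ← Real.exp_add]
        exact Real.one_le_exp (by nlinarith)
    _ ≤ ∑ F ∈ E.powerset, θ ^ F.card * Real.exp (-(c * Real.log θ)) :=
        sum_le_sum_of_subset_of_nonneg (filter_subset _ _) fun _ _ _ => by positivity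
    _ = (1 + θ) ^ E.card * Real.exp (-(c * Real.log θ)) := by
        rw [← sum_mul, ← prod_const, prod_one_add]
        simp only [prod_const]
    _ ≤ Real.exp θ ^ E.card * Real.exp (-(c * Real.log θ)) := by
        gcongr
        linarith [Real.add_one_le_exp θ]
    _ = _ := by rw [← Real.exp_nat_mul, ← Real.exp_add]; congr 1; ring

lemma choose_sub_le (r m t : ℕ) (ht : t ≤ r) :
    ((r - m).choose t : ℝ) ≤ r.choose t * Real.exp (-(m * hs r t)) := by
  induction t with
  | zero => simp [hs]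
  | succ t ih =>
    have h1 := ih (by omega)
    have hu : (0 : ℝ) < r - t := by
      have : (t : ℝ) < r := by exact_mod_cast (show t < r by omega)
      linarith
    have h2 : (((r - m).choose (t + 1) : ℕ) : ℝ) * (t + 1) =
        (r - m).choose t * ((r - m - t : ℕ) : ℝ) := by
      exact_mod_cast Nat.choose_succ_right_eq (r - m) t
    have h3 := choose_succ_real r t (by omega)
    have h4 : ((r - m - t : ℕ) : ℝ) ≤ (r - t) * Real.exp (-(m * (1 / ((r : ℝ) - t)))) := by
      by_cases h : m + t ≤ r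
      · rw [Nat.sub_sub, Nat.cast_sub h]
        have := Real.add_one_le_exp (-(m * (1 / ((r : ℝ) - t))))
        refine le_trans (le_of_eq ?_) (mul_le_mul_of_nonneg_left this hu.le)
        push_cast; field_simp; ring
      · rw [show r - m - t = 0 by omega]
        simp only [Nat.cast_zero]; positivity
    refine le_of_mul_le_mul_right ?_ (show (0 : ℝ) < t + 1 by positivity)
    rw [h2, mul_right_comm, h3, hs, sum_range_succ, ← hs, mul_add, neg_add, Real.exp_add]
    calc _ ≤ (r.choose t * Real.exp (-(m * hs r t))) *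
          ((r - t) * Real.exp (-(m * (1 / ((r : ℝ) - t))))) := by gcongr
      _ = _ := by ring

end Pool.Agent.MP_6b3410_lc.H75
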