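import Mathlib

/-!
Marginals, total correlation and the Gibbs inequality for a finite set of bit strings.
-/

namespace Pool.Agent.MP_6b3410_lc.H75

open Finset

variable {n : ℕ}

/-- marginal frequency of the value `b` at coordinate `i` -/
noncomputable def mg (Y : Finset (Fin n → Bool)) (i : Fin n) (b : Bool) : ℝ :=
  ((Y.filter fun y => y i = b).card : ℝ) / Y.card

/-- total correlation (times the size) -/
noncomputable def tc (Y : Finset (Fin n → Bool)) : ℝ :=
  ∑ y ∈ Y, (-∑ i, Real.log (mg Y i (y i)) - Real.log Y.card)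

lemma mg_nonneg (Y : Finset (Fin n → Bool)) (i : Fin n) (b : Bool) : 0 ≤ mg Y i b := by
  unfold mg; positivity

lemma mg_not {Y : Finset (Fin n → Bool)} (hY : Y.Nonempty) (i : Fin n) (b : Bool) :
    mg Y i (!b) = 1 - mg Y i b := by
  have h0 : (0 : ℝ) < Y.card := by exact_mod_cast hY.card_pos
  have h1 := card_filter_add_card_filter_not (s := Y) (fun y => y i = b)
  have h2 : (Y.filter fun y => ¬ y i = b) = Y.filter fun y => y i = !b := by
    refine filter_congr fun y _ => ?_
    cases y i <;> cases b <;> simp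
  rw [h2] at h1
  have h3 : ((Y.filter fun y => y i = b).card : ℝ) + (Y.filter fun y => y i = !b).card = Y.card := by
    exact_mod_cast h1
  unfold mg
  field_simp
  linarith

lemma mg_le_one (Y : Finset (Fin n → Bool)) (i : Fin n) (b : Bool) : mg Y i b ≤ 1 := by
  unfold mg
  refine div_le_one_of_le₀ ?_ (by positivity)
  exact_mod_cast card_filter_le _ _

lemma mg_pos {Y : Finset (Fin n → Bool)} {y : Fin n → Bool} (hy : y ∈ Y) (i : Fin n) :
    0 < mg Y i (y i) := by
  have h0 : (0 : ℝ) < Y.card := by exact_mod_cast card_pos.2 ⟨y, hy⟩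
  have h1 : (0 : ℝ) < (Y.filter fun y' => y' i = y i).card := by
    exact_mod_cast card_pos.2 ⟨y, by simp [hy]⟩
  unfold mg; positivity

lemma mg_const {Y : Finset (Fin n → Bool)} {i : Fin n} {b : Bool} (h : ∀ y ∈ Y, y i = b) :
    mg Y i (!b) = 0 := by
  unfold mg
  rw [filter_false_of_mem fun y hy => by rw [h y hy]; cases b <;> simp]
  simp

lemma sum_coord (Y : Finset (Fin n → Bool)) (i : Fin n) (f : Bool → ℝ) :
    ∑ y ∈ Y, f (y i) = Y.card * (mg Y i true * f true + mg Y i false * f false) := by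
  rcases Y.eq_empty_or_nonempty with rfl | hY
  · simp
  have h0 : (0 : ℝ) < Y.card := by exact_mod_cast hY.card_pos
  rw [← sum_filter_add_sum_filter_not Y (fun y => y i = true)]
  have e1 : ∑ y ∈ Y.filter (fun y => y i = true), f (y i) =
      ∑ y ∈ Y.filter (fun y => y i = true), f true :=
    sum_congr rfl fun y hy => by rw [(mem_filter.1 hy).2]
  have e2 : ∑ y ∈ Y.filter (fun y => ¬ y i = true), f (y i) =
      ∑ y ∈ Y.filter (fun y => y i = false), f false :=
    sum_congr (filter_congr fun y _ => by simp) fun y hy => by rw [(mem_filter.1 hy).2]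
  rw [e1, e2]
  simp only [sum_const, nsmul_eq_mul, mg]
  field_simp

lemma gibbs0 {α : Type*} (Y : Finset α) (u : α → ℝ) (hu : ∀ y ∈ Y, 0 < u y) (B : ℝ)
    (hB : ∑ y ∈ Y, u y ≤ B) :
    ∑ y ∈ Y, (Real.log (u y) + Real.log Y.card) ≤ Y.card * (B - 1) := by
  rcases Y.eq_empty_or_nonempty with rfl | hY
  · simp
  have h0 : (0 : ℝ) < Y.card := by exact_mod_cast hY.card_pos
  calc _ ≤ ∑ y ∈ Y, (Y.card * u y - 1) := by
        refine sum_le_sum fun y hy => ?_
        rw [← Real.log_mul (hu y hy).ne' h0.ne', mul_comm]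
        exact Real.log_le_sub_one_of_pos (mul_pos h0 (hu y hy))
    _ = Y.card * (∑ y ∈ Y, u y - 1) := by
        rw [sum_sub_distrib, ← mul_sum]; simp; ring
    _ ≤ _ := by gcongr

lemma gibbs (Y : Finset (Fin n → Bool)) (Γ : (Fin n → Bool) → ℝ) (hΓ : ∀ y ∈ Y, 0 < Γ y) (B : ℝ)
    (hB : ∑ y ∈ Y, (∏ i, mg Y i (y i)) * Γ y ≤ B) :
    ∑ y ∈ Y, Real.log (Γ y) ≤ tc Y + Y.card * (B - 1) := by
  have h1 := gibbs0 Y _ (fun y hy => mul_pos (prod_pos fun i _ => mg_pos hy i) (hΓ y hy)) B hB
  have h2 : ∑ y ∈ Y, Real.log (Γ y) - tc Y =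
      ∑ y ∈ Y, (Real.log ((∏ i, mg Y i (y i)) * Γ y) + Real.log Y.card) := by
    unfold tc
    rw [← sum_sub_distrib]
    refine sum_congr rfl fun y hy => ?_
    rw [Real.log_mul (prod_pos fun i _ => mg_pos hy i).ne' (hΓ y hy).ne',
      Real.log_prod fun i _ => (mg_pos hy i).ne']
    ring
  linarith

lemma sum_prod_le (Y : Finset (Fin n → Bool)) (w : Fin n → Bool → ℝ) (hw : ∀ i b, 0 ≤ w i b)
    (hw1 : ∀ i, w i true + w i false ≤ 1) : ∑ y ∈ Y, ∏ i, w i (y i) ≤ 1 := by
  calc _ ≤ ∑ y : Fin n → Bool, ∏ i, w i (y i) :=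
        sum_le_sum_of_subset_of_nonneg (subset_univ _) fun y _ _ => prod_nonneg fun i _ => hw _ _
    _ = ∏ i, ∑ b, w i b := by rw [prod_univ_sum, Fintype.piFinset_univ]
    _ ≤ 1 := prod_le_one (fun i _ => sum_nonneg fun b _ => hw i b) fun i _ => by
        simpa using hw1 i

lemma sum_nu_le (Y : Finset (Fin n → Bool)) : ∑ y ∈ Y, ∏ i, mg Y i (y i) ≤ 1 := by
  rcases Y.eq_empty_or_nonempty with rfl | hY
  · simp
  refine sum_prod_le Y _ (mg_nonneg Y) fun i => ?_
  have := mg_not hY i true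
  simp only [Bool.not_true] at this
  linarith

lemma tc_nonneg (Y : Finset (Fin n → Bool)) : 0 ≤ tc Y := by
  have := gibbs Y (fun _ => 1) (fun _ _ => one_pos) 1 (by simpa using sum_nu_le Y)
  simpa using this

lemma tern (w : Fin n → Option Bool → ℝ) :
    ∑ z : Fin n → Option Bool, ∏ i, w i (z i) =
      ∏ i, (w i none + w i (some true) + w i (some false)) := by
  rw [← Fintype.piFinset_univ, ← prod_univ_sum]
  refine prod_congr rfl fun i _ => ?_
  rw [Fintype.sum_option]
  simp [add_assoc]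

lemma fiber_le {α T : Type*} [DecidableEq T] (Y : Finset α) (κ : α → T) (f g : α → ℝ)
    (h : ∀ y ∈ Y, ∑ y' ∈ Y.filter (fun y' => κ y' = κ y), f y' ≤
      ∑ y' ∈ Y.filter (fun y' => κ y' = κ y), g y') :
    ∑ y ∈ Y, f y ≤ ∑ y ∈ Y, g y := by
  rw [← sum_fiberwise_of_maps_to (s := Y) (t := Y.image κ) (g := κ)
      (fun y hy => mem_image_of_mem κ hy) f,
    ← sum_fiberwise_of_maps_to (s := Y) (t := Y.image κ) (g := κ)
      (fun y hy => mem_image_of_mem κ hy) g]
  refine sum_le_sum fun t ht => ?_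
  obtain ⟨y, hy, rfl⟩ := mem_image.1 ht
  exact h y hy

/-- a class that is free on `E` only and has nearly full size has many balanced coordinates -/
lemma base_cls (Y : Finset (Fin n → Bool)) (E : Finset (Fin n))
    (hE : ∀ y ∈ Y, ∀ y' ∈ Y, ∀ i, i ∉ E → y' i = y i) :
    ∑ _y ∈ Y, Real.log Y.card ≤
      ∑ y ∈ Y, (E.card * Real.log (4 / 3) + 2 * ∑ i, mg Y i (!y i)) := by
  rcases Y.eq_empty_or_nonempty with rfl | hY
  · simp
  let w : Fin n → Bool → ℝ := fun i b => if i ∈ E then 1 / 4 + mg Y i b / 2 else mg Y i b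
  have hw : ∀ y ∈ Y, ∀ i, 0 < w i (y i) := by
    intro y hy i
    have := mg_pos hy i
    simp only [w]; split_ifs <;> positivity
  have h1 := gibbs0 Y (fun y => ∏ i, w i (y i)) (fun y hy => prod_pos fun i _ => hw y hy i) 1
    (sum_prod_le Y w (fun i b => by
      have := mg_nonneg Y i b
      simp only [w]; split_ifs <;> positivity) fun i => by
      have := mg_not hY i true
      simp only [Bool.not_true] at this
      simp only [w]; split_ifs <;> linarith)
  rw [sub_self, mul_zero, sum_add_distrib] at h1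
  refine le_trans (b := ∑ y ∈ Y, -Real.log (∏ i, w i (y i))) (by rw [sum_neg_distrib]; linarith)
    (sum_le_sum fun y hy => ?_)
  rw [Real.log_prod fun i _ => (hw y hy i).ne', ← sum_neg_distrib]
  have h2 : (E.card : ℝ) * Real.log (4 / 3) =
      ∑ i : Fin n, if i ∈ E then Real.log (4 / 3) else 0 := by
    rw [← sum_filter]; simp
  rw [h2, mul_sum, ← sum_add_distrib]
  refine sum_le_sum fun i _ => ?_
  have h3 := mg_not hY i (y i)
  have h4 := mg_nonneg Y i (y i)
  have h5 := mg_nonneg Y i (!y i)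
  simp only [w]
  split_ifs with hi
  · set q := mg Y i (!y i)
    have h6 : 1 / 4 + mg Y i (y i) / 2 = (4 / 3)⁻¹ * (1 - 2 * q / 3) := by rw [h3]; ring
    have h7 : 0 < 1 - 2 * q / 3 := by linarith
    rw [h6, Real.log_mul (by norm_num) h7.ne', Real.log_inv]
    have h8 := Real.one_sub_inv_le_log_of_pos h7
    have h9 : (1 - 2 * q / 3)⁻¹ ≤ 1 + 2 * q := by
      rw [inv_eq_one_div, div_le_iff₀ h7]; nlinarith
    linarith
  · have h6 : mg Y i (!y i) = 0 := mg_const fun y' hy' => hE y hy y' hy' i hi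
    rw [h6, show mg Y i (y i) = 1 by linarith]
    simp

end Pool.Agent.MP_6b3410_lc.H75
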