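import Mathlib
import Pool.Agent.MP_6b3410_lc.H75.Cls

/-!
Revealing a canonical term destroys little randomness outside its support.
-/

namespace Pool.Agent.MP_6b3410_lc.H75

open Finset

variable {n : ℕ}

lemma log_lb {t c : ℝ} (ht : -1 / 2 ≤ t) (h1 : 0 ≤ t → t ^ 2 ≤ c) (h2 : t ≤ 0 → 2 * t ^ 2 ≤ c) :
    t - c ≤ Real.log (1 + t) := by
  have h0 : 0 < 1 + t := by linarith
  refine le_trans ?_ (Real.one_sub_inv_le_log_of_pos h0)
  have : 1 - (1 + t)⁻¹ = t - t ^ 2 / (1 + t) := by field_simp; ring
  rw [this, sub_le_sub_iff_left, div_le_iff₀ h0]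
  rcases le_total 0 t with h | h
  · have := h1 h
    nlinarith [sq_nonneg t]
  · have := h2 h
    nlinarith [sq_nonneg t]

theorem phi_step {T : Type} [DecidableEq T] (Y : Finset (Fin n → Bool))
    (κ : (Fin n → Bool) → T) (S : (Fin n → Bool) → Finset (Fin n))
    (h1 : ∀ y ∈ Y, ∀ y' ∈ Y, κ y' = κ y → S y' = S y ∧ ∀ i ∈ S y, y' i = y i)
    (h2 : ∀ y ∈ Y, ∀ y' ∈ Y, (∀ i ∈ S y, y' i = y i) → (∀ i ∈ S y', y' i = y i) → κ y' = κ y)
    (ε : ℝ) (hε : 0 < ε) (hε' : ε ≤ 1 / 2) :
    (1 - 2 * ε) * ∑ y ∈ Y, ∑ i, mg Y i (!y i) - 2 * tc Y / ε -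
        2 * ∑ y ∈ Y, ∑ i ∈ S y, mg Y i (!y i) ≤
      ∑ y ∈ Y, ∑ i, mg (Y.filter fun y' => κ y' = κ y) i (!y i) := by
  rcases Y.eq_empty_or_nonempty with rfl | hY
  · simp [tc]
  let Z : (Fin n → Bool) → Finset (Fin n → Bool) := fun y => Y.filter fun y' => κ y' = κ y
  have hZ : ∀ y y', κ y' = κ y → Z y' = Z y := fun y y' h => by simp only [Z, h]
  let bb : (Fin n → Bool) → Fin n → Bool := fun y i => decide (mg Y i true ≤ mg (Z y) i true)
  let C : (Fin n → Bool) → Fin n → Prop := fun y i => i ∉ S y ∧ y i = bb y i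
  let t : (Fin n → Bool) → Fin n → ℝ := fun y i =>
    if C y i then ε * mg Y i (!y i) ^ 2 else -(ε * (mg Y i (y i) * mg Y i (!y i)))
  have hp0 := mg_nonneg Y
  have hp1 := mg_le_one Y
  have hn := mg_not hY
  have hV : ∀ i b, mg Y i b * mg Y i (!b) = mg Y i true * mg Y i false := by
    intro i b; cases b <;> simp [mul_comm]
  have hlog : ∀ y i, t y i - ε ^ 2 * mg Y i (!y i) ≤ Real.log (1 + t y i) ∧ 0 < 1 + t y i := by
    intro y i
    have e0 := hp0 i (y i)
    have e1 := hp0 i (!y i)
    have e2 := hn i (y i)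
    set p := mg Y i (y i)
    set q := mg Y i (!y i)
    have e3 : p * q ≤ 1 / 4 := by nlinarith [sq_nonneg (p - q)]
    have e4 : 0 ≤ p * q := by positivity
    have e5 : -1 / 2 ≤ t y i := by
      simp only [t]
      split_ifs
      · have : 0 ≤ ε * q ^ 2 := by positivity
        linarith
      · nlinarith
    refine ⟨log_lb e5 ?_ ?_, by linarith⟩
    · intro _
      simp only [t]
      split_ifs
      · have : q ^ 4 ≤ q := pow_le_of_le_one e1 (by linarith) (by norm_num)
        calc (ε * q ^ 2) ^ 2 = ε ^ 2 * q ^ 4 := by ring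
          _ ≤ _ := by gcongr
      · have : (p * q) ^ 2 ≤ q := by nlinarith
        calc (-(ε * (p * q))) ^ 2 = ε ^ 2 * (p * q) ^ 2 := by ring
          _ ≤ _ := by gcongr
    · intro h
      simp only [t] at h ⊢
      split_ifs at h ⊢
      · have : ε * q ^ 2 = 0 := le_antisymm h (by positivity)
        rw [this]; simp; positivity
      · have : 2 * (p * q) ^ 2 ≤ q := by nlinarith
        calc 2 * (-(ε * (p * q))) ^ 2 = ε ^ 2 * (2 * (p * q) ^ 2) := by ring
          _ ≤ _ := by gcongr
  -- the counting inequality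
  let w : Fin n → Option Bool → ℝ := fun i o => o.elim (ε * (mg Y i true * mg Y i false))
    fun b => mg Y i b * (1 - ε * (mg Y i true * mg Y i false))
  have hw : ∀ i o, 0 ≤ w i o := by
    intro i o
    have e0 := hp0 i true
    have e1 := hp0 i false
    have e2 := hp1 i true
    have e3 := hp1 i false
    rcases o with _ | b
    · simp only [w, Option.elim]; positivity
    · simp only [w, Option.elim]
      refine mul_nonneg (hp0 i b) ?_
      have : mg Y i true * mg Y i false ≤ 1 := mul_le_one₀ e2 e1 e3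
      nlinarith
  let O : (Fin n → Bool) → Fin n → Finset (Option Bool) := fun y i =>
    if C y i then {none, some (y i)} else {some (y i)}
  have hO : ∀ y i, mg Y i (y i) * (1 + t y i) = ∑ o ∈ O y i, w i o := by
    intro y i
    have e2 := hn i (y i)
    simp only [O, t]
    split_ifs
    · rw [sum_pair (by simp)]
      simp only [w, Option.elim, ← hV i (y i), e2]; ring
    · simp only [sum_singleton, w, Option.elim, ← hV i (y i), e2]; ring
  have hcount : ∑ y ∈ Y, (∏ i, mg Y i (y i)) * ∏ i, (1 + t y i) ≤ 1 := by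
    calc _ = ∑ y ∈ Y, ∑ z ∈ Fintype.piFinset (O y), ∏ i, w i (z i) := by
          refine sum_congr rfl fun y _ => ?_
          rw [← prod_mul_distrib, ← prod_univ_sum]
          exact prod_congr rfl fun i _ => hO y i
      _ = ∑ z ∈ Y.biUnion fun y => Fintype.piFinset (O y), ∏ i, w i (z i) := by
          refine (sum_biUnion fun y hy y' hy' hne => ?_).symm
          rw [Function.onFun, disjoint_left]
          intro z hz hz'
          rw [Fintype.mem_piFinset] at hz hz'
          have key : ∀ i, (C y i ∧ C y' i) ∨ y' i = y i := by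
            intro i
            have e1 := hz i
            have e2 := hz' i
            simp only [O] at e1 e2
            split_ifs at e1 e2 with c1 c2 c2
            · exact Or.inl ⟨c1, c2⟩
            · right
              rw [mem_singleton.1 e2] at e1
              simpa using e1
            · right
              rw [mem_singleton.1 e1] at e2
              simpa [eq_comm] using e2
            · right
              rw [mem_singleton.1 e2] at e1
              simpa using e1
          have e3 := h2 y hy y' hy' (fun i hi => (key i).resolve_left fun h => h.1.1 hi)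
            (fun i hi => (key i).resolve_left fun h => h.2.1 hi)
          refine hne (funext fun i => ?_)
          rcases key i with h | h
          · rw [h.1.2, h.2.2]
            simp only [bb, hZ _ _ e3]
          · exact h.symm
      _ ≤ ∑ z : Fin n → Option Bool, ∏ i, w i (z i) :=
          sum_le_sum_of_subset_of_nonneg (subset_univ _) fun z _ _ => prod_nonneg fun i _ => hw _ _
      _ = 1 := by
          rw [tern]
          refine prod_eq_one fun i _ => ?_
          have e2 := hn i true
          simp only [Bool.not_true] at e2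
          simp only [w, Option.elim, e2]; ring
  have hG := gibbs Y (fun y => ∏ i, (1 + t y i)) (fun y _ => prod_pos fun i _ => (hlog y i).2) 1
    hcount
  rw [sub_self, mul_zero, add_zero] at hG
  have hG2 : ∑ y ∈ Y, ∑ i, t y i - ε ^ 2 * ∑ y ∈ Y, ∑ i, mg Y i (!y i) ≤ tc Y := by
    refine le_trans ?_ hG
    rw [mul_sum, ← sum_sub_distrib]
    refine sum_le_sum fun y _ => ?_
    rw [Real.log_prod fun i _ => (hlog y i).2.ne', mul_sum, ← sum_sub_distrib]
    exact sum_le_sum fun i _ => (hlog y i).1
  -- the variance inequality, one coordinate at a time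
  have hvar : ∀ i, ∑ y ∈ Y, (ε / 2 * (mg Y i (!y i) - mg (Z y) i (!y i)) -
      ε * (if i ∈ S y then mg Y i (!y i) else 0)) ≤ ∑ y ∈ Y, t y i := by
    intro i
    let ξ : Bool → ℝ := fun b => (if b = true then 1 else 0) - mg Y i true
    have hξ : ∑ y ∈ Y, ξ (y i) = 0 := by
      have e2 := hn i true
      simp only [Bool.not_true] at e2
      rw [sum_coord Y i ξ]
      simp only [ξ, e2, if_true, Bool.false_eq_true, if_false]
      ring
    have := fiber_le Y κ (fun y => ε / 2 * (mg Y i (!y i) - mg (Z y) i (!y i)) -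
      ε * (if i ∈ S y then mg Y i (!y i) else 0) - ε / 2 * (2 * mg Y i true - 1) * ξ (y i))
      (fun y => t y i) fun y0 hy0 => ?_
    · rwa [sum_sub_distrib, ← mul_sum, hξ, mul_zero, sub_zero] at this
    change ∑ y' ∈ Z y0, _ ≤ ∑ y' ∈ Z y0, _
    have hZ0 : (Z y0).Nonempty := ⟨y0, by simp [Z, hy0]⟩
    have hm : ∀ y ∈ Z y0, y ∈ Y ∧ κ y = κ y0 := fun y hy => mem_filter.1 hy
    have e1 : ∑ y ∈ Z y0, (ε / 2 * (mg Y i (!y i) - mg (Z y) i (!y i)) -
        ε * (if i ∈ S y then mg Y i (!y i) else 0) - ε / 2 * (2 * mg Y i true - 1) * ξ (y i)) = _ :=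
      (sum_congr rfl fun y hy => by
        rw [hZ _ _ (hm y hy).2, (h1 y0 hy0 y (hm y hy).1 (hm y hy).2).1]).trans
      (sum_coord (Z y0) i fun b => ε / 2 * (mg Y i (!b) - mg (Z y0) i (!b)) -
        ε * (if i ∈ S y0 then mg Y i (!b) else 0) - ε / 2 * (2 * mg Y i true - 1) * ξ b)
    have e2 : ∑ y ∈ Z y0, t y i = _ :=
      (sum_congr rfl fun y hy => by
        simp only [t, C, bb, hZ _ _ (hm y hy).2, (h1 y0 hy0 y (hm y hy).1 (hm y hy).2).1]).trans
      (sum_coord (Z y0) i fun b => if i ∉ S y0 ∧ b = bb y0 i then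
        ε * mg Y i (!b) ^ 2 else -(ε * (mg Y i b * mg Y i (!b))))
    rw [e1, e2]
    refine mul_le_mul_of_nonneg_left ?_ (by positivity)
    have e3 := hn i true
    have e4 := mg_not hZ0 i true
    have e5 := hp0 i true
    have e6 := hp1 i true
    have e7 := mg_nonneg (Z y0) i true
    have e8 := mg_le_one (Z y0) i true
    simp only [Bool.not_true] at e3 e4
    by_cases hi : i ∈ S y0
    · have e9 : mg (Z y0) i (!y0 i) = 0 :=
        mg_const fun y hy => (h1 y0 hy0 y (hm y hy).1 (hm y hy).2).2 i hi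
      cases hb : y0 i
      · rw [hb, Bool.not_false] at e9
        simp only [hi, ξ, e3, e4, e9, Bool.not_true, Bool.not_false, not_true, false_and, if_true,
          if_false, Bool.false_eq_true]
        nlinarith
      · rw [hb, Bool.not_true, e4] at e9
        have e10 : mg (Z y0) i true = 1 := by linarith
        simp only [hi, ξ, e3, e4, e10, Bool.not_true, Bool.not_false, not_true, false_and, if_true,
          if_false, Bool.false_eq_true]
        nlinarith
    · by_cases hb : mg Y i true ≤ mg (Z y0) i true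
      · simp only [hi, ξ, e3, e4, bb, hb, Bool.not_true, Bool.not_false, not_false_eq_true,
          true_and, if_true, if_false, Bool.false_eq_true, decide_true]
        nlinarith [mul_nonneg (mul_nonneg hε.le (sub_nonneg.2 hb)) (sub_nonneg.2 e8)]
      · simp only [hi, ξ, e3, e4, bb, hb, Bool.not_true, Bool.not_false, not_false_eq_true,
          true_and, if_true, if_false, Bool.false_eq_true, decide_false, Bool.true_eq_false]
        nlinarith [mul_nonneg (mul_nonneg hε.le (sub_nonneg.2 (not_le.1 hb).le)) e7]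
  have hvar2 := sum_le_sum fun i (_ : i ∈ (univ : Finset (Fin n))) => hvar i
  rw [sum_comm, sum_comm (f := fun i y => t y i)] at hvar2
  have e : ∑ y ∈ Y, ∑ i, (ε / 2 * (mg Y i (!y i) - mg (Z y) i (!y i)) -
      ε * (if i ∈ S y then mg Y i (!y i) else 0)) =
      ε / 2 * (∑ y ∈ Y, ∑ i, mg Y i (!y i) - ∑ y ∈ Y, ∑ i, mg (Z y) i (!y i)) -
        ε * ∑ y ∈ Y, ∑ i ∈ S y, mg Y i (!y i) := by
    rw [← sum_sub_distrib, mul_sum, mul_sum, ← sum_sub_distrib]
    refine sum_congr rfl fun y _ => ?_
    rw [sum_sub_distrib, ← mul_sum, ← mul_sum, sum_sub_distrib, ← sum_filter]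
    simp
  rw [e] at hvar2
  change _ ≤ ∑ y ∈ Y, ∑ i, mg (Z y) i (!y i)
  have e' : 2 * tc Y / ε * ε = 2 * tc Y := by field_simp
  refine le_of_mul_le_mul_right ?_ hε
  nlinarith

end Pool.Agent.MP_6b3410_lc.H75
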