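import Mathlib
import Pool.Agent.MP_6b3410_lc.H75.Phi

/-!
The classes given by the coordinates outside `E` and the canonical terms with index in `J`.
-/

namespace Pool.Agent.MP_6b3410_lc.H75

open Finset

variable {n r : ℕ} (X : Finset (Fin n → Bool)) (S : Fin r → (Fin n → Bool) → Finset (Fin n))

/-- the term of index `j` at `x` -/
def tm (j : Fin r) (x : Fin n → Bool) : Fin n → Option Bool :=
  fun i => if i ∈ S j x then some (x i) else none

/-- the data that is revealed -/
def key (E : Finset (Fin n)) (J : Finset (Fin r)) (x : Fin n → Bool) :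
    (Fin n → Option Bool) × (Fin r → Fin n → Option Bool) :=
  (fun i => if i ∈ E then none else some (x i), fun j => if j ∈ J then tm S j x else fun _ => none)

/-- the class of `x` -/
def cl (E : Finset (Fin n)) (J : Finset (Fin r)) (x : Fin n → Bool) : Finset (Fin n → Bool) :=
  X.filter fun y => key S E J y = key S E J x

/-- conditional entropy -/
noncomputable def HH (E : Finset (Fin n)) (J : Finset (Fin r)) : ℝ :=
  ∑ x ∈ X, Real.log (cl X S E J x).card

/-- remaining randomness -/
noncomputable def QQ (E : Finset (Fin n)) (J : Finset (Fin r)) : ℝ :=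
  ∑ x ∈ X, ∑ i, mg (cl X S E J x) i (!x i)

/-- conditional total correlation -/
noncomputable def TT (E : Finset (Fin n)) (J : Finset (Fin r)) : ℝ :=
  ∑ x ∈ X, (-∑ i, Real.log (mg (cl X S E J x) i (x i)) - Real.log (cl X S E J x).card)

variable {X S}

lemma tm_eq {j : Fin r} {x y : Fin n → Bool} :
    tm S j y = tm S j x ↔ S j y = S j x ∧ ∀ i ∈ S j x, y i = x i := by
  constructor
  · intro h
    have h1 : S j y = S j x := by
      ext i
      have := congrFun h i
      simp only [tm] at this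
      split_ifs at this with c1 c2 <;> simp [*]
    refine ⟨h1, fun i hi => ?_⟩
    have := congrFun h i
    simpa [tm, h1, hi] using this
  · rintro ⟨h1, h2⟩
    funext i
    simp only [tm, h1]
    split_ifs with hi
    · rw [h2 i hi]
    · rfl

lemma mem_cl {E : Finset (Fin n)} {J : Finset (Fin r)} {x y : Fin n → Bool} :
    y ∈ cl X S E J x ↔ y ∈ X ∧ (∀ i, i ∉ E → y i = x i) ∧ ∀ j ∈ J, tm S j y = tm S j x := by
  simp only [cl, mem_filter, key, Prod.mk.injEq, funext_iff (f := fun i => if i ∈ E then _ else _),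
    funext_iff (f := fun j => if j ∈ J then _ else _)]
  refine and_congr_right fun _ => and_congr (forall_congr' fun i => ?_) (forall_congr' fun j => ?_)
  · split_ifs with h <;> simp [h]
  · split_ifs with h <;> simp [h]

lemma self_mem_cl (E : Finset (Fin n)) (J : Finset (Fin r)) {x : Fin n → Bool} (hx : x ∈ X) :
    x ∈ cl X S E J x := mem_filter.2 ⟨hx, rfl⟩

lemma cl_eq {E : Finset (Fin n)} {J : Finset (Fin r)} {x y : Fin n → Bool}
    (h : y ∈ cl X S E J x) : cl X S E J y = cl X S E J x := by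
  simp only [cl, (mem_filter.1 h).2]

lemma cls_le (E : Finset (Fin n)) (J : Finset (Fin r))
    (f g : Finset (Fin n → Bool) → (Fin n → Bool) → ℝ)
    (h : ∀ x ∈ X, ∑ y ∈ cl X S E J x, f (cl X S E J x) y ≤ ∑ y ∈ cl X S E J x, g (cl X S E J x) y) :
    ∑ x ∈ X, f (cl X S E J x) x ≤ ∑ x ∈ X, g (cl X S E J x) x := by
  refine fiber_le X (key S E J) _ _ fun x hx => ?_
  change ∑ y ∈ cl X S E J x, _ ≤ ∑ y ∈ cl X S E J x, _
  rw [sum_congr rfl (g := f (cl X S E J x)) fun y hy => by rw [cl_eq hy],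
    sum_congr rfl (f := fun y => g (cl X S E J y) y) (g := g (cl X S E J x))
      fun y hy => by rw [cl_eq hy]]
  exact h x hx

lemma q_off {E : Finset (Fin n)} {J : Finset (Fin r)} {x : Fin n → Bool} {i : Fin n} (hi : i ∉ E) :
    mg (cl X S E J x) i (!x i) = 0 :=
  mg_const fun _ hy => (mem_cl.1 hy).2.1 i hi

lemma q_term {E : Finset (Fin n)} {J : Finset (Fin r)} {x : Fin n → Bool} {i : Fin n} {j : Fin r}
    (hj : j ∈ J) (hi : i ∈ S j x) : mg (cl X S E J x) i (!x i) = 0 :=
  mg_const fun _ hy => (tm_eq.1 ((mem_cl.1 hy).2.2 j hj)).2 i hi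

lemma sum_q_le (E : Finset (Fin n)) (J : Finset (Fin r)) (x : Fin n → Bool) :
    ∑ i, mg (cl X S E J x) i (!x i) ≤ E.card := by
  rw [← sum_subset (subset_univ E) fun i _ hi => q_off hi]
  exact (sum_le_sum fun i _ => mg_le_one _ _ _).trans (by simp)

lemma TT_nonneg (E : Finset (Fin n)) (J : Finset (Fin r)) : 0 ≤ TT X S E J := by
  have := cls_le (X := X) (S := S) E J (fun _ _ => 0)
    (fun Y y => -∑ i, Real.log (mg Y i (y i)) - Real.log Y.card) fun x _ => by
      simpa [tc] using tc_nonneg (cl X S E J x)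
  simpa [TT] using this

lemma TT_eq (E : Finset (Fin n)) (J : Finset (Fin r)) :
    TT X S E J = ∑ i ∈ E, (HH X S E J - HH X S (E.erase i) J) - HH X S E J := by
  simp only [TT, HH, ← sum_sub_distrib]
  rw [sum_comm, ← sum_sub_distrib]
  refine sum_congr rfl fun x hx => ?_
  have h0 := self_mem_cl (S := S) E J hx
  congr 1
  rw [← sum_subset (subset_univ E) fun i _ hi => by
    have h1 := mg_not ⟨x, h0⟩ i (x i)
    rw [q_off hi] at h1
    rw [show mg (cl X S E J x) i (x i) = 1 by linarith, Real.log_one], ← sum_neg_distrib]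
  refine sum_congr rfl fun i hi => ?_
  have h1 : cl X S (E.erase i) J x = (cl X S E J x).filter fun y => y i = x i := by
    ext y
    simp only [mem_filter, mem_cl, mem_erase, not_and]
    constructor
    · rintro ⟨h1, h2, h3⟩
      exact ⟨⟨h1, fun i' hi' => h2 i' fun _ => hi', h3⟩, h2 i fun h => absurd rfl h⟩
    · rintro ⟨⟨h1, h2, h3⟩, h4⟩
      refine ⟨h1, fun i' hi' => ?_, h3⟩
      by_cases h : i' = i
      · rw [h, h4]
      · exact h2 i' (hi' h)
  have h2 : (0 : ℝ) < (cl X S (E.erase i) J x).card := by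
    exact_mod_cast card_pos.2 ⟨x, self_mem_cl _ _ hx⟩
  have h3 : (0 : ℝ) < (cl X S E J x).card := by exact_mod_cast card_pos.2 ⟨x, h0⟩
  rw [mg, ← h1, Real.log_div h2.ne' h3.ne']
  ring

lemma card_free (Y : Finset (Fin n → Bool)) (E : Finset (Fin n)) (x : Fin n → Bool)
    (h : ∀ y ∈ Y, ∀ i, i ∉ E → y i = x i) : Y.card ≤ 2 ^ E.card := by
  calc _ ≤ (Fintype.piFinset fun i => if i ∈ E then (univ : Finset Bool) else {x i}).card := by
        refine card_le_card fun y hy => Fintype.mem_piFinset.2 fun i => ?_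
        split_ifs with hi
        · exact mem_univ _
        · rw [h y hy i hi]; simp
    _ = _ := by
        rw [Fintype.card_piFinset, ← prod_const,
          ← prod_subset (subset_univ E) fun i _ hi => by simp [hi]]
        exact prod_congr rfl fun i hi => by simp [hi]

lemma HH_bounds (E : Finset (Fin n)) (J : Finset (Fin r)) :
    0 ≤ HH X S E J ∧ HH X S E J ≤ X.card * E.card := by
  refine ⟨sum_nonneg fun x _ => Real.log_natCast_nonneg _, ?_⟩
  refine (sum_le_sum (g := fun _ => (E.card : ℝ)) fun x hx => ?_).trans (by simp)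
  have h1 := card_free (cl X S E J x) E x fun y hy => (mem_cl.1 hy).2.1
  have h3 : (0 : ℝ) < (cl X S E J x).card := by exact_mod_cast card_pos.2 ⟨x, self_mem_cl _ _ hx⟩
  calc _ ≤ Real.log (2 ^ E.card) := Real.log_le_log h3 (by exact_mod_cast h1)
    _ = E.card * Real.log 2 := by rw [Real.log_pow]
    _ ≤ E.card * 1 := by
        gcongr
        linarith [Real.log_two_lt_d9]
    _ = _ := mul_one _

/-- a set all of whose `G`-fibres are small is small -/
lemma card_fibres (Z : Finset (Fin n → Bool)) (G : Finset (Fin n)) (f : (Fin n → Bool) → ℝ)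
    (h : ∀ x ∈ Z, ∑ y ∈ Z.filter (fun y => ∀ i, i ∉ G → y i = x i), f y ≤ 1) :
    ∑ x ∈ Z, f x ≤ 2 ^ (n - G.card) := by
  let κ : (Fin n → Bool) → Fin n → Bool := fun x i => if i ∈ G then false else x i
  rw [← sum_fiberwise_of_maps_to (s := Z) (t := Z.image κ) (g := κ)
      (fun y hy => mem_image_of_mem κ hy) f]
  have h1 := card_free (Z.image κ) Gᶜ (fun _ => false) fun y hy i hi => by
    obtain ⟨x, -, rfl⟩ := mem_image.1 hy
    simp only [κ]
    rw [if_pos (by simpa using hi)]
  rw [card_compl, Fintype.card_fin] at h1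
  refine (sum_le_sum (g := fun _ => (1 : ℝ)) fun t ht => ?_).trans (by simpa using by exact_mod_cast h1)
  obtain ⟨x, hx, rfl⟩ := mem_image.1 ht
  refine le_trans (le_of_eq (sum_congr (filter_congr fun y _ => ?_) fun _ _ => rfl)) (h x hx)
  rw [funext_iff]
  refine forall_congr' fun i => ?_
  simp only [κ]
  split_ifs with hi <;> simp [hi]

lemma QQ_base (E : Finset (Fin n)) (Δ : ℝ) (hX : (2 : ℝ) ^ n * Real.exp (-Δ) ≤ X.card)
    (hΔ : Δ ≤ E.card / 12) : X.card * E.card / 8 ≤ QQ X S E ∅ := by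
  have h0 : (0 : ℝ) < X.card := lt_of_lt_of_le (by positivity) hX
  have h1 := cls_le (X := X) (S := S) E ∅ (fun Y _ => Real.log Y.card)
    (fun Y y => E.card * Real.log (4 / 3) + 2 * ∑ i, mg Y i (!y i)) fun x _ =>
      base_cls _ E fun y hy y' hy' i hi => by
        rw [(mem_cl.1 hy).2.1 i hi, (mem_cl.1 hy').2.1 i hi]
  rw [sum_add_distrib, sum_const, ← mul_sum, nsmul_eq_mul] at h1
  have hpos : ∀ x ∈ X, (0 : ℝ) < (cl X S E ∅ x).card := fun x hx => by
    exact_mod_cast card_pos.2 ⟨x, self_mem_cl _ _ hx⟩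
  have h2 := gibbs0 X (fun x => ((cl X S E ∅ x).card : ℝ)⁻¹ / 2 ^ (n - E.card))
    (fun x hx => by have := hpos x hx; positivity) 1 (by
      rw [← sum_div, div_le_one (by positivity)]
      refine card_fibres X E _ fun x hx => ?_
      have e1 : X.filter (fun y => ∀ i, i ∉ E → y i = x i) = cl X S E ∅ x := by
        ext y; simp [mem_cl]
      rw [e1, sum_congr rfl (g := fun _ => ((cl X S E ∅ x).card : ℝ)⁻¹) fun y hy => by
        rw [cl_eq hy], sum_const, nsmul_eq_mul, mul_inv_cancel₀ (hpos x hx).ne'])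
  rw [sub_self, mul_zero, sum_congr rfl (g := fun x => -Real.log (cl X S E ∅ x).card +
      (Real.log X.card - (n - E.card : ℕ) * Real.log 2)) fun x hx => by
    rw [Real.log_div (inv_pos.2 (hpos x hx)).ne' (by positivity), Real.log_inv, Real.log_pow]
    ring, sum_add_distrib, sum_neg_distrib, sum_const, nsmul_eq_mul] at h2
  have h3 : n * Real.log 2 - Δ ≤ Real.log X.card := by
    have := Real.log_le_log (by positivity) hX
    rwa [Real.log_mul (by positivity) (by positivity), Real.log_pow, Real.log_exp] at this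
  have h4 : E.card ≤ n := by simpa using card_le_univ E
  rw [Nat.cast_sub h4] at h2
  have h5 : 1 / 3 ≤ Real.log 2 - Real.log (4 / 3) := by
    rw [← Real.log_div (by norm_num) (by norm_num)]
    refine le_trans ?_ (Real.one_sub_inv_le_log_of_pos (by norm_num))
    norm_num
  have h6 : (E.card : ℝ) / 4 ≤ Real.log X.card - (n - E.card) * Real.log 2 -
      E.card * Real.log (4 / 3) := by
    nlinarith [mul_le_mul_of_nonneg_left h5 (show (0 : ℝ) ≤ E.card by positivity)]
  unfold QQ
  nlinarith [mul_le_mul_of_nonneg_left h6 h0.le]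

lemma QQ_step (hS : ∀ j, ∀ x ∈ X, ∀ y ∈ X, (∀ i ∈ S j x, y i = x i) → (∀ i ∈ S j y, y i = x i) →
      S j y = S j x)
    (E : Finset (Fin n)) (J : Finset (Fin r)) (j : Fin r) (ε : ℝ) (hε : 0 < ε) (hε' : ε ≤ 1 / 2) :
    (1 - 2 * ε) * QQ X S E J - 2 * TT X S E J / ε -
      2 * ∑ x ∈ X, ∑ i ∈ S j x, mg (cl X S E J x) i (!x i) ≤ QQ X S E (insert j J) := by
  have h1 := cls_le (X := X) (S := S) E J (fun Y y => (1 - 2 * ε) * ∑ i, mg Y i (!y i) -
      2 * (-∑ i, Real.log (mg Y i (y i)) - Real.log Y.card) / ε - 2 * ∑ i ∈ S j y, mg Y i (!y i))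
    (fun Y y => ∑ i, mg (Y.filter fun y' => tm S j y' = tm S j y) i (!y i)) fun x _ => by
      have := phi_step (cl X S E J x) (tm S j) (S j) (fun y _ y' _ h => tm_eq.1 h)
        (fun y hy y' hy' h1 h2 => tm_eq.2 ⟨hS j y (mem_cl.1 hy).1 y' (mem_cl.1 hy').1 h1 h2, h1⟩)
        ε hε hε'
      rwa [sum_sub_distrib, sum_sub_distrib, ← mul_sum, ← mul_sum, ← sum_div, ← mul_sum]
  rw [sum_sub_distrib, sum_sub_distrib, ← mul_sum, ← mul_sum, ← sum_div, ← mul_sum] at h1
  refine h1.trans (le_of_eq (sum_congr rfl fun x _ => ?_))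
  have : cl X S E (insert j J) x = (cl X S E J x).filter fun y' => tm S j y' = tm S j x := by
    ext y
    simp only [mem_filter, mem_cl, forall_mem_insert]
    tauto
  rw [this]

end Pool.Agent.MP_6b3410_lc.H75
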