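import Mathlib
import Pool.Agent.MP_6b3410_lc.H75.Glob
import Pool.Agent.MP_6b3410_lc.H75.Comb

/-!
After revealing all but `g` of the canonical terms some randomness is left.
-/

namespace Pool.Agent.MP_6b3410_lc.H75

open Finset

variable {n r : ℕ} {X : Finset (Fin n → Bool)} {S : Fin r → (Fin n → Bool) → Finset (Fin n)}

/-- the number of terms at `x` that read the coordinate `i` -/
def mu (S : Fin r → (Fin n → Bool) → Finset (Fin n)) (x : Fin n → Bool) (i : Fin n) : ℕ :=
  (univ.filter fun j => i ∈ S j x).card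

lemma sum_mu (x : Fin n → Bool) (f : Fin n → ℝ) :
    ∑ j, ∑ i ∈ S j x, f i = ∑ i, mu S x i * f i := by
  rw [sum_congr rfl (g := fun j => ∑ i, if i ∈ S j x then f i else 0) fun j _ => by
    rw [← sum_filter]; simp, sum_comm]
  refine sum_congr rfl fun i _ => ?_
  rw [← sum_filter, sum_const, nsmul_eq_mul, mu]

theorem exists_J (hS : ∀ j, ∀ x ∈ X, ∀ y ∈ X, (∀ i ∈ S j x, y i = x i) →
      (∀ i ∈ S j y, y i = x i) → S j y = S j x)
    (k g : ℕ) (F ε : ℝ) (hε : 0 < ε) (hε' : ε ≤ 1 / 2)
    (hch : ∀ Y c : ℕ → ℝ, 1 / 8 ≤ Y 0 → (∀ t, t ≤ r → Y t ≤ 1) →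
      (∀ t, t < r → (1 - 2 * ε) * Y t - ε * Real.exp (-F) - 2 * c t / ((r : ℝ) - t) ≤ Y (t + 1)) →
      (∀ t, t < r → c t ≤ 2 * k) →
      (∀ t, t < r → ∀ F' : ℝ, 0 ≤ F' → c t * hs r t ≤ F' * Y t + Real.exp (-F')) →
      Real.exp (-F) ≤ Y (r - g))
    (E : Finset (Fin n)) (hM : (0 : ℝ) < X.card * E.card)
    (hbase : X.card * E.card / 8 ≤ QQ X S E ∅)
    (hT : ∀ J, TT X S E J ≤ ε ^ 2 * Real.exp (-F) / 2 * (X.card * E.card))
    (hm : ∑ x ∈ X, ∑ i ∈ E, (mu S x i : ℝ) ≤ 2 * k * (X.card * E.card)) :
    ∃ J : Finset (Fin r), J.card = r - g ∧ Real.exp (-F) * (X.card * E.card) ≤ QQ X S E J := by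
  set M : ℝ := X.card * E.card with hMdef
  let P : ℕ → Finset (Finset (Fin r)) := fun t => univ.powersetCard t
  have hP : ∀ t, (P t).card = r.choose t := fun t => by simp [P]
  have hc0 : ∀ t, t ≤ r → (0 : ℝ) < r.choose t := fun t ht => by
    exact_mod_cast Nat.choose_pos ht
  let q : Finset (Fin r) → (Fin n → Bool) → Fin n → ℝ := fun J x i => mg (cl X S E J x) i (!x i)
  have hq0 : ∀ J x i, 0 ≤ q J x i := fun J x i => mg_nonneg _ _ _
  have hq1 : ∀ J x i, q J x i ≤ 1 := fun J x i => mg_le_one _ _ _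
  let cc : Finset (Fin r) → ℝ := fun J => ∑ x ∈ X, ∑ i, mu S x i * q J x i
  have key := hch (fun t => (∑ J ∈ P t, QQ X S E J) / (r.choose t * M))
    (fun t => (∑ J ∈ P t, cc J) / (r.choose t * M)) ?_ ?_ ?_ ?_ ?_
  · have h0 := hc0 (r - g) (Nat.sub_le _ _)
    rw [le_div_iff₀ (by positivity)] at key
    obtain ⟨J, hJ, h⟩ := exists_le_of_sum_le (s := P (r - g)) (f := fun _ => Real.exp (-F) * M)
      (g := fun J => QQ X S E J) (powersetCard_nonempty.2 (by simp)) (by
        rw [sum_const, hP, nsmul_eq_mul]; linarith)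
    exact ⟨J, (mem_powersetCard.1 hJ).2, h⟩
  · simp only [P, powersetCard_zero, sum_singleton, Nat.choose_zero_right, Nat.cast_one, one_mul]
    rw [le_div_iff₀ hM]; linarith
  · intro t ht
    have h0 := hc0 t ht
    rw [div_le_one (by positivity), ← hP, ← nsmul_eq_mul, ← sum_const]
    refine sum_le_sum fun J _ => ?_
    rw [hMdef, ← nsmul_eq_mul, ← sum_const]
    exact sum_le_sum fun x _ => sum_q_le _ _ _
  · intro t ht
    have h0 := hc0 t ht.le
    have h1 := hc0 (t + 1) ht
    have hu : (0 : ℝ) < r - t := by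
      have : (t : ℝ) < r := by exact_mod_cast ht
      linarith
    have h2 := choose_succ_real r t ht.le
    have h3 := updown (univ : Finset (Fin r)) t fun B a => QQ X S E (insert a B)
    have h4 : ∑ A ∈ P (t + 1), ∑ a ∈ A, QQ X S E (insert a (A.erase a)) =
        (t + 1) * ∑ A ∈ P (t + 1), QQ X S E A := by
      rw [mul_sum]
      refine sum_congr rfl fun A hA => ?_
      rw [sum_congr rfl (g := fun _ => QQ X S E A) fun a ha => by rw [insert_erase ha], sum_const,
        (mem_powersetCard.1 hA).2, nsmul_eq_mul]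
      push_cast; ring
    have h5 : ∑ B ∈ P t, ((r - t) * ((1 - 2 * ε) * QQ X S E B - ε * Real.exp (-F) * M) - 2 * cc B) ≤
        ∑ B ∈ P t, ∑ a ∈ univ \ B, QQ X S E (insert a B) := by
      refine sum_le_sum fun B hB => ?_
      refine le_trans ?_ (sum_le_sum fun a _ => QQ_step hS E B a ε hε hε')
      rw [sum_sub_distrib, sum_const, card_sdiff_of_subset (subset_univ _), ← mul_sum,
        (mem_powersetCard.1 hB).2, nsmul_eq_mul, card_univ, Fintype.card_fin, Nat.cast_sub ht.le]
      have e1 : 2 * TT X S E B / ε ≤ ε * Real.exp (-F) * M := by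
        rw [div_le_iff₀ hε]
        nlinarith [hT B]
      have e2 : ∑ a ∈ univ \ B, ∑ x ∈ X, ∑ i ∈ S a x, q B x i ≤ cc B := by
        refine le_trans (sum_le_sum_of_subset_of_nonneg (subset_univ _) fun a _ _ =>
          sum_nonneg fun x _ => sum_nonneg fun i _ => hq0 _ _ _) (le_of_eq ?_)
        rw [sum_comm]
        exact sum_congr rfl fun x _ => sum_mu x _
      have e3 := mul_le_mul_of_nonneg_left e1 hu.le
      simp only [q] at e2
      nlinarith
    rw [← h3, h4, sum_sub_distrib, ← mul_sum, ← mul_sum, sum_sub_distrib, ← mul_sum, sum_const, hP,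
      nsmul_eq_mul] at h5
    rw [le_div_iff₀ (by positivity)]
    refine le_of_mul_le_mul_left (le_trans (le_of_eq ?_) h5) (show (0 : ℝ) < t + 1 by positivity)
    rw [show (r.choose (t + 1) : ℝ) = r.choose t * (r - t) / (t + 1) by
      rw [← h2]; field_simp]
    field_simp
  · intro t ht
    have h0 := hc0 t ht.le
    rw [div_le_iff₀ (by positivity), mul_left_comm, ← hP, ← nsmul_eq_mul, ← sum_const]
    refine sum_le_sum fun J _ => le_trans (sum_le_sum fun x _ => ?_) hm
    rw [← sum_subset (subset_univ E) fun i _ hi => by simp only [q]; rw [q_off hi, mul_zero]]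
    exact sum_le_sum fun i _ => mul_le_of_le_one_right (by positivity) (hq1 _ _ _)
  · intro t ht F' hF'
    have h0 := hc0 t ht.le
    rw [div_mul_eq_mul_div, ← mul_div_assoc, div_add' _ _ _ (by positivity),
      div_le_div_iff_of_pos_right (by positivity)]
    have e1 : ∀ J x i, mu S x i * q J x i * hs r t ≤ F' * q J x i +
        if i ∈ E ∧ Disjoint J (univ.filter fun j => i ∈ S j x) then
          Real.exp (mu S x i * hs r t) * Real.exp (-F') else 0 := by
      intro J x i
      split_ifs with h
      · rw [← Real.exp_add]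
        have e2 := Real.add_one_le_exp (mu S x i * hs r t + -F')
        have e3 := Real.exp_pos (mu S x i * hs r t + -F')
        have e4 := hq0 J x i
        have e5 := hq1 J x i
        nlinarith [mul_nonneg e4 (sub_nonneg.2 e2), mul_nonneg (sub_nonneg.2 e5) e3.le]
      · have : q J x i = 0 := by
          by_cases hi : i ∈ E
          · obtain ⟨j, h1, h2⟩ := not_disjoint_iff.1 fun h' => h ⟨hi, h'⟩
            exact q_term h1 (mem_filter.1 h2).2
          · exact q_off hi
        simp [this]
    have e2 : ∀ x i, ∑ J ∈ P t, (if i ∈ E ∧ Disjoint J (univ.filter fun j => i ∈ S j x) then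
        Real.exp (mu S x i * hs r t) * Real.exp (-F') else 0) ≤
        if i ∈ E then r.choose t * Real.exp (-F') else 0 := by
      intro x i
      split_ifs with hi
      · simp only [hi, true_and]
        rw [← sum_filter, sum_const, nsmul_eq_mul, ← mul_assoc]
        refine mul_le_mul_of_nonneg_right ?_ (Real.exp_pos _).le
        have e3 : (P t).filter (fun J => Disjoint J (univ.filter fun j => i ∈ S j x)) =
            (univ.filter fun j => i ∈ S j x)ᶜ.powersetCard t := by
          ext J
          simp only [P, mem_filter, mem_powersetCard, subset_univ, true_and, subset_compl_iff_disjoint_right]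
          tauto
        rw [e3, card_powersetCard, card_compl, Fintype.card_fin]
        have e4 := choose_sub_le r (mu S x i) t ht.le
        calc _ ≤ r.choose t * Real.exp (-(mu S x i * hs r t)) * Real.exp (mu S x i * hs r t) :=
              mul_le_mul_of_nonneg_right e4 (Real.exp_pos _).le
          _ = _ := by rw [mul_assoc, ← Real.exp_add]; simp
      · simp [hi]
    calc (∑ J ∈ P t, cc J) * hs r t
        = ∑ J ∈ P t, ∑ x ∈ X, ∑ i, mu S x i * q J x i * hs r t := by simp only [cc, sum_mul]
      _ ≤ ∑ J ∈ P t, ∑ x ∈ X, ∑ i, (F' * q J x i +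
          if i ∈ E ∧ Disjoint J (univ.filter fun j => i ∈ S j x) then
            Real.exp (mu S x i * hs r t) * Real.exp (-F') else 0) :=
          sum_le_sum fun J _ => sum_le_sum fun x _ => sum_le_sum fun i _ => e1 J x i
      _ = F' * ∑ J ∈ P t, QQ X S E J + ∑ x ∈ X, ∑ i, ∑ J ∈ P t,
          (if i ∈ E ∧ Disjoint J (univ.filter fun j => i ∈ S j x) then
            Real.exp (mu S x i * hs r t) * Real.exp (-F') else 0) := by
          simp only [sum_add_distrib, QQ, mul_sum, q]
          congr 1
          rw [sum_comm]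
          exact sum_congr rfl fun x _ => sum_comm
      _ ≤ F' * ∑ J ∈ P t, QQ X S E J + ∑ x ∈ X, ∑ i,
          (if i ∈ E then r.choose t * Real.exp (-F') else 0) := by
          gcongr with x _ i _
          exact e2 x i
      _ = _ := by
          congr 1
          rw [← sum_filter]
          simp [hMdef]; ring

end Pool.Agent.MP_6b3410_lc.H75
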