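import Mathlib
import Pool.Agent.MP_6b3410_lc.H75.Fin

/-!
In a class with small total correlation many points share their values outside a small free set.
-/

namespace Pool.Agent.MP_6b3410_lc.H75

open Finset

variable {n : ℕ}

theorem final_cls2 (Y Y' : Finset (Fin n → Bool)) (hY' : Y' ⊆ Y) (lam L c : ℝ) (hlam0 : 0 ≤ lam)
    (hlam1 : lam ≤ 1) (hL : 1 ≤ L)
    (hc : 5 * (lam * ∑ y ∈ Y, ∑ i, mg Y i (!y i)) ≤ c * Y.card)
    (hmult : ∀ F : Finset (Fin n), (∀ i ∈ F, 0 < mg Y i true * mg Y i false) → (F.card : ℝ) ≤ c →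
      ∀ y ∈ Y', ((Y'.filter fun y' => ∀ i, i ∉ F → y' i = y i).card : ℝ) ≤ L * (32 / 17) ^ F.card) :
    lam / 32 * ∑ y ∈ Y', ∑ i, mg Y i (!y i) ≤ tc Y + Y.card * (Real.log L + 2) := by
  rcases Y.eq_empty_or_nonempty with rfl | hY
  · simp [tc, subset_empty.1 hY']
  have h0 : (0 : ℝ) < Y.card := by exact_mod_cast hY.card_pos
  have hp0 := mg_nonneg Y
  have hp1 := mg_le_one Y
  have hn := mg_not hY
  have hc' : ∑ i, 5 * (lam * (2 * (mg Y i true * mg Y i false))) ≤ c := by
    rw [sum_q] at hc
    rw [← mul_sum, ← mul_sum]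
    refine le_of_mul_le_mul_right ?_ h0
    linarith
  have hV : ∀ i b, mg Y i b * mg Y i (!b) = mg Y i true * mg Y i false := by
    intro i b; cases b <;> simp [mul_comm]
  let w : ℝ → Fin n → Option Bool → ℝ := fun θ i o =>
    o.elim (θ * (lam * (2 * (mg Y i true * mg Y i false))))
      fun b => mg Y i b * (1 - lam * mg Y i (!b))
  have hw : ∀ θ, 0 ≤ θ → ∀ i o, 0 ≤ w θ i o := by
    intro θ hθ i o
    have e0 := hp0 i true
    have e1 := hp0 i false
    rcases o with _ | b
    · simp only [w, Option.elim]; positivity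
    · simp only [w, Option.elim]
      exact mul_nonneg (hp0 i b) (sub_nonneg.2 (mul_le_one₀ hlam1 (hp0 _ _) (hp1 _ _)))
  have hsum : ∀ θ, ∑ z : Fin n → Option Bool, ∏ i, w θ i (z i) =
      ∏ i, (1 + (θ - 1) * (lam * (2 * (mg Y i true * mg Y i false)))) := by
    intro θ
    rw [tern]
    refine prod_congr rfl fun i _ => ?_
    have e2 := hn i true
    simp only [Bool.not_true] at e2
    simp only [w, Option.elim, e2, Bool.not_true, Bool.not_false]; ring
  let O : (Fin n → Bool) → Fin n → Finset (Option Bool) := fun y i => {none, some (y i)}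
  have hO : ∀ y i, mg Y i (y i) * (1 + lam / 16 * mg Y i (!y i)) =
      ∑ o ∈ O y i, w (17 / 32) i o := by
    intro y i
    simp only [O]
    rw [sum_pair (by simp)]
    simp only [w, Option.elim, ← hV i (y i)]; ring
  have he : Real.exp 1 ≤ 3 := Real.exp_one_lt_three.le
  have he1 : 1 ≤ Real.exp 1 := Real.one_le_exp zero_le_one
  have hz : ∀ z : Fin n → Option Bool,
      ((Y'.filter fun y => z ∈ Fintype.piFinset (O y)).card : ℝ) * ∏ i, w (17 / 32) i (z i) ≤
        L * ∏ i, w 1 i (z i) + Real.exp (-c) * ∏ i, w (2 * Real.exp 1) i (z i) := by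
    intro z
    have e1 : 0 ≤ ∏ i, w 1 i (z i) := prod_nonneg fun i _ => hw 1 zero_le_one _ _
    have e2 : 0 ≤ Real.exp (-c) * ∏ i, w (2 * Real.exp 1) i (z i) :=
      mul_nonneg (Real.exp_pos _).le (prod_nonneg fun i _ => hw _ (by positivity) _ _)
    let F : Finset (Fin n) := univ.filter fun i => z i = none
    have e4 : ∀ θ, ∏ i, w θ i (z i) = θ ^ F.card * ∏ i, w 1 i (z i) := by
      intro θ
      rw [← prod_const, prod_filter, ← prod_mul_distrib]
      refine prod_congr rfl fun i _ => ?_
      rcases z i with _ | b <;> simp [w]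
    rw [e4 (17 / 32), ← mul_assoc]
    rcases e1.eq_or_lt with e3 | e3
    · rw [← e3]; simpa using e2
    have hM : ∀ y, z ∈ Fintype.piFinset (O y) → ∀ i, i ∉ F → z i = some (y i) := by
      intro y hy i hi
      have := Fintype.mem_piFinset.1 hy i
      simp only [F, mem_filter, mem_univ, true_and] at hi
      simpa [O, hi] using this
    by_cases hF : (F.card : ℝ) ≤ c
    · refine le_trans (mul_le_mul_of_nonneg_right ?_ e1) (le_add_of_nonneg_right e2)
      rcases (Y'.filter fun y => z ∈ Fintype.piFinset (O y)).eq_empty_or_nonempty with e | ⟨y, hy⟩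
      · rw [e]; simp; linarith
      rw [mem_filter] at hy
      have e5 : ((Y'.filter fun y => z ∈ Fintype.piFinset (O y)).card : ℝ) ≤
          L * (32 / 17) ^ F.card := by
        refine le_trans ?_ (hmult F (fun i hi => ?_) hF y hy.1)
        · refine Nat.cast_le.2 (card_le_card fun y' hy' => ?_)
          rw [mem_filter] at hy' ⊢
          exact ⟨hy'.1, fun i hi =>
            Option.some.inj ((hM y' hy'.2 i hi).symm.trans (hM y hy.2 i hi))⟩
        · have e4 := prod_ne_zero_iff.1 e3.ne' i (mem_univ i)
          rw [(mem_filter.1 hi).2] at e4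
          refine lt_of_le_of_ne (mul_nonneg (hp0 _ _) (hp0 _ _)) fun h => e4 ?_
          simp only [w, Option.elim, ← h]; ring
      calc _ ≤ L * (32 / 17) ^ F.card * (17 / 32) ^ F.card := by gcongr
        _ = L := by rw [mul_assoc, ← mul_pow]; norm_num
    · refine le_trans ?_ (le_add_of_nonneg_left (by positivity))
      have e5 : (Y'.filter fun y => z ∈ Fintype.piFinset (O y)).card ≤ 2 ^ F.card := by
        calc _ ≤ (Fintype.piFinset fun i =>
              if z i = none then (univ : Finset Bool) else {(z i).getD false}).card := by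
              refine card_le_card fun y hy => Fintype.mem_piFinset.2 fun i => ?_
              split_ifs with h
              · exact mem_univ _
              · rw [hM y (mem_filter.1 hy).2 i (by simpa [F] using h)]; simp
          _ = _ := by
              rw [Fintype.card_piFinset, ← prod_const, prod_filter]
              refine prod_congr rfl fun i _ => ?_
              split_ifs <;> simp
      rw [e4 (2 * Real.exp 1), ← mul_assoc]
      refine mul_le_mul_of_nonneg_right ?_ e1
      have e6 : 1 ≤ Real.exp (-c) * Real.exp 1 ^ F.card := by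
        rw [← Real.exp_nat_mul, ← Real.exp_add]
        exact Real.one_le_exp (by linarith)
      have e7 : (17 / 32 : ℝ) ^ F.card ≤ 1 := pow_le_one₀ (by norm_num) (by norm_num)
      calc _ ≤ (2 : ℝ) ^ F.card * 1 := by
            refine mul_le_mul ?_ e7 (by positivity) (by positivity)
            exact_mod_cast e5
        _ ≤ 2 ^ F.card * (Real.exp (-c) * Real.exp 1 ^ F.card) := by gcongr
        _ = _ := by rw [mul_pow]; ring
  have hcount : ∑ y ∈ Y', (∏ i, mg Y i (y i)) * ∏ i, (1 + lam / 16 * mg Y i (!y i)) ≤ L + 1 := by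
    calc _ = ∑ y ∈ Y', ∑ z : Fin n → Option Bool,
            if z ∈ Fintype.piFinset (O y) then ∏ i, w (17 / 32) i (z i) else 0 := by
          refine sum_congr rfl fun y _ => ?_
          rw [← prod_mul_distrib, ← sum_filter, filter_mem_eq_inter, univ_inter, ← prod_univ_sum]
          exact prod_congr rfl fun i _ => hO y i
      _ = ∑ z : Fin n → Option Bool,
            ((Y'.filter fun y => z ∈ Fintype.piFinset (O y)).card : ℝ) *
              ∏ i, w (17 / 32) i (z i) := by
          rw [sum_comm]
          refine sum_congr rfl fun z _ => ?_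
          rw [← sum_filter, sum_const, nsmul_eq_mul]
      _ ≤ _ := sum_le_sum fun z _ => hz z
      _ ≤ _ := by
          rw [sum_add_distrib, ← mul_sum, ← mul_sum, hsum, hsum]
          simp only [sub_self, zero_mul, add_zero, prod_const_one, mul_one, add_le_add_iff_left]
          have e1 : ∏ i, (1 + (2 * Real.exp 1 - 1) * (lam * (2 * (mg Y i true * mg Y i false)))) ≤
              Real.exp c := by
            refine le_trans ?_ (Real.exp_le_exp.2 hc')
            rw [Real.exp_sum]
            refine prod_le_prod (fun i _ => ?_) fun i _ => ?_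
            · have e0 := hp0 i true
              have e1 := hp0 i false
              have : 0 ≤ 2 * Real.exp 1 - 1 := by linarith
              positivity
            · have e0 := hp0 i true
              have e1 := hp0 i false
              refine le_trans ?_ (Real.add_one_le_exp _)
              have : 0 ≤ lam * (2 * (mg Y i true * mg Y i false)) := by positivity
              nlinarith
          calc _ ≤ Real.exp (-c) * Real.exp c := by gcongr
            _ = 1 := by rw [← Real.exp_add]; simp
  have hL0 : 0 < L := by linarith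
  have hpos : ∀ (y : Fin n → Bool) i, 0 < 1 + lam / 16 * mg Y i (!y i) := fun y i => by
    have := hp0 i (!y i); positivity
  have hG := gibbs Y (fun y => if y ∈ Y' then (∏ i, (1 + lam / 16 * mg Y i (!y i))) / L else 1)
    (fun y _ => by
      split_ifs
      · exact div_pos (prod_pos fun i _ => hpos y i) hL0
      · exact one_pos) 3 (by
      rw [← sum_sdiff hY']
      have e1 : ∑ y ∈ Y \ Y', (∏ i, mg Y i (y i)) *
          (if y ∈ Y' then (∏ i, (1 + lam / 16 * mg Y i (!y i))) / L else 1) ≤ 1 := by
        refine le_trans ?_ (sum_nu_le Y)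
        rw [sum_congr rfl (g := fun y => ∏ i, mg Y i (y i)) fun y hy => by
          rw [if_neg (mem_sdiff.1 hy).2, mul_one]]
        exact sum_le_sum_of_subset_of_nonneg sdiff_subset fun y _ _ =>
          prod_nonneg fun i _ => hp0 _ _
      have e2 : ∑ y ∈ Y', (∏ i, mg Y i (y i)) *
          (if y ∈ Y' then (∏ i, (1 + lam / 16 * mg Y i (!y i))) / L else 1) ≤ 2 := by
        rw [sum_congr rfl (g := fun y => ((∏ i, mg Y i (y i)) *
          ∏ i, (1 + lam / 16 * mg Y i (!y i))) / L) fun y hy => by rw [if_pos hy, mul_div_assoc],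
          ← sum_div, div_le_iff₀ hL0]
        linarith
      linarith)
  rw [← sum_sdiff hY', sum_eq_zero (s := Y \ Y') fun y hy => by
    rw [if_neg (mem_sdiff.1 hy).2, Real.log_one], zero_add] at hG
  have e1 : ∑ y ∈ Y', (lam / 32 * ∑ i, mg Y i (!y i) - Real.log L) ≤
      ∑ y ∈ Y', Real.log (if y ∈ Y' then (∏ i, (1 + lam / 16 * mg Y i (!y i))) / L else 1) := by
    refine sum_le_sum fun y hy => ?_
    rw [if_pos hy, Real.log_div (prod_pos fun i _ => hpos y i).ne' hL0.ne',
      Real.log_prod fun i _ => (hpos y i).ne', mul_sum]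
    refine sub_le_sub_right (sum_le_sum fun i _ => ?_) _
    refine le_trans ?_ (Real.one_sub_inv_le_log_of_pos (hpos y i))
    have e2 : lam / 16 * mg Y i (!y i) ≤ 1 := mul_le_one₀ (by linarith) (hp0 _ _) (hp1 _ _)
    have e3 : 0 ≤ lam / 16 * mg Y i (!y i) := mul_nonneg (by linarith) (hp0 _ _)
    rw [show lam / 32 * mg Y i (!y i) = lam / 16 * mg Y i (!y i) / 2 by ring]
    generalize lam / 16 * mg Y i (!y i) = u at e2 e3
    have : (1 + u)⁻¹ ≤ 1 - u / 2 := by
      rw [inv_eq_one_div, div_le_iff₀ (by linarith)]; nlinarith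
    linarith
  rw [sum_sub_distrib, ← mul_sum, sum_const, nsmul_eq_mul] at e1
  have e2 : (Y'.card : ℝ) * Real.log L ≤ Y.card * Real.log L :=
    mul_le_mul_of_nonneg_right (by exact_mod_cast card_le_card hY') (Real.log_nonneg hL)
  linarith

end Pool.Agent.MP_6b3410_lc.H75
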