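import Mathlib
import Pool.Agent.MP_6b3410_lc.H75.Glob
import Pool.Agent.MP_6b3410_lc.H75.Comb
import Pool.Agent.MP_6b3410_lc.H75.Fin

/-!
Extraction of the rectangle.
-/

namespace Pool.Agent.MP_6b3410_lc.H75

open Finset

variable {n r : ℕ} {X : Finset (Fin n → Bool)} {S : Fin r → (Fin n → Bool) → Finset (Fin n)}

lemma small_side (A : Fin r → Set (Fin n → Bool))
    (hA : ∀ j, ∀ x ∈ X, ∀ y, (∀ i ∈ S j x, y i = x i) → y ∈ A j) (K : ℕ)
    (hK : ¬ HasRect (⋂ j, A j) K) (J : Finset (Fin r)) (F G : Finset (Fin n)) (hFG : Disjoint F G)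
    (x : Fin n → Bool) :
    (X.filter fun y => (∀ i, i ∉ F → y i = x i) ∧ Disjoint (Jᶜ.biUnion fun j => S j y) G).card < K ∨
    (X.filter fun y => (∀ i, i ∉ G → y i = x i) ∧ ∀ j ∈ J, Disjoint (S j y) F).card < K := by
  by_contra hcon
  rw [not_or, not_lt, not_lt] at hcon
  refine hK ⟨F, G, x, _, _, hFG, hcon.1, hcon.2, fun u hu => (mem_filter.1 hu).2.1,
    fun v hv => (mem_filter.1 hv).2.1, fun u hu v hv => Set.mem_iInter.2 fun j => ?_⟩
  rw [mem_filter] at hu hv
  by_cases hj : j ∈ J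
  · refine hA j v hv.1 _ fun i hi => ?_
    rw [if_neg (disjoint_left.1 (hv.2.2 j hj) hi)]
  · refine hA j u hu.1 _ fun i hi => ?_
    split_ifs with hF
    · rfl
    · rw [hu.2.1 i hF, hv.2.1 i (disjoint_left.1 hu.2.2 (mem_biUnion.2 ⟨j, mem_compl.2 hj, hi⟩))]

open Classical in
theorem final_rect (A : Fin r → Set (Fin n → Bool))
    (hA : ∀ j, ∀ x ∈ X, ∀ y, (∀ i ∈ S j x, y i = x i) → y ∈ A j)
    (E : Finset (Fin n)) (J : Finset (Fin r)) (w η c' θ : ℝ) (K s t : ℕ)
    (hw : 0 < w) (hw1 : w ≤ 1) (hθ : 0 < θ) (hθ1 : θ ≤ 1) (hc' : 0 < c')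
    (hX0 : (0 : ℝ) < X.card) (hE0 : (0 : ℝ) < E.card) (hE : 2 * E.card ≤ n) (ht : 2 * t ≤ n)
    (hSI : ∀ x ∈ X, (Jᶜ.biUnion fun j => S j x).card ≤ s) (hs : 8 * s * t ≤ c' * n)
    (hQ : w * (X.card * E.card) ≤ QQ X S E J) (hT : TT X S E J ≤ η * (X.card * E.card))
    (hbad : Real.exp (w * E.card - 5 * (w * E.card / 2) * Real.log w) *
      (Real.exp (θ * t - c' * Real.log θ) * (K * (2 ^ n * Real.exp (-((t - c') * Real.log 2))))) ≤
        w ^ 2 / 16 * X.card)
    (hL : Real.log (Real.exp (θ * t - c' * Real.log θ) * K) + 2 ≤ w * E.card / 16)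
    (hη : η < w ^ 2 / 32) : HasRect (⋂ j, A j) K := by
  by_contra hK
  have hK0 : 0 < K := by
    have := small_side A hA K hK J ∅ ∅ (by simp) fun _ => false
    omega
  have hK1 : (1 : ℝ) ≤ K := by exact_mod_cast hK0
  set m : ℝ := (E.card : ℝ) with hm
  set a : ℝ := w * m / 2 with ha
  have ha0 : 0 < a := by positivity
  let SI : (Fin n → Bool) → Finset (Fin n) := fun x => Jᶜ.biUnion fun j => S j x
  let AY : Finset (Fin n → Bool) → ℝ := fun Y => ∑ y ∈ Y, ∑ i, mg Y i (!y i)
  let rich : Finset (Fin n → Bool) → Prop := fun Y => a * Y.card ≤ AY Y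
  let lam : Finset (Fin n → Bool) → ℝ := fun Y => if rich Y then a * Y.card / AY Y else 0
  have hAY : ∀ Y, 0 ≤ AY Y := fun Y => sum_nonneg fun _ _ => sum_nonneg fun _ _ => mg_nonneg _ _ _
  have hlam0 : ∀ Y, 0 ≤ lam Y := fun Y => by
    have := hAY Y
    simp only [lam]; split_ifs <;> positivity
  have hlam1 : ∀ Y, lam Y ≤ 1 := fun Y => by
    simp only [lam]; split_ifs with h
    · exact div_le_one_of_le₀ h (hAY Y)
    · exact zero_le_one
  have hlam : ∀ Y, Y.Nonempty → rich Y → lam Y * AY Y = a * Y.card := fun Y hY h => by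
    have h0 : (0 : ℝ) < Y.card := by exact_mod_cast hY.card_pos
    have h1 : 0 < AY Y := lt_of_lt_of_le (by positivity) h
    simp only [lam, if_pos h]; field_simp
  let ω : (Fin n → Bool) → ℝ := fun x => lam (cl X S E J x) * ∑ i, mg (cl X S E J x) i (!x i)
  have hω0 : ∀ x, 0 ≤ ω x := fun x =>
    mul_nonneg (hlam0 _) (sum_nonneg fun _ _ => mg_nonneg _ _ _)
  have hω1 : ∀ x, ω x ≤ m := fun x =>
    (mul_le_of_le_one_left (sum_nonneg fun _ _ => mg_nonneg _ _ _) (hlam1 _)).trans (sum_q_le _ _ _)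
  set ρ : ℝ := ((X.filter fun x => rich (cl X S E J x)).card : ℝ) with hρ
  have hind : ∀ u : ℝ, ∑ x ∈ X, (if rich (cl X S E J x) then u else 0) = ρ * u := fun u => by
    rw [← sum_filter, sum_const, nsmul_eq_mul]
  have hΩ : ρ * a ≤ ∑ x ∈ X, ω x := by
    rw [← hind]
    refine cls_le E J (fun Y _ => if rich Y then a else 0) (fun Y y => lam Y * ∑ i, mg Y i (!y i))
      fun x hx => ?_
    rw [← mul_sum, sum_const, nsmul_eq_mul]
    split_ifs with h
    · rw [hlam _ ⟨x, self_mem_cl _ _ hx⟩ h, mul_comm]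
    · rw [mul_zero]; exact mul_nonneg (hlam0 _) (hAY _)
  have hρ1 : w * X.card / 2 ≤ ρ := by
    have h1 := cls_le (X := X) (S := S) E J (fun Y y => ∑ i, mg Y i (!y i))
      (fun Y _ => (if rich Y then m else 0) + a) fun x hx => by
        split_ifs with h
        · refine sum_le_sum fun y hy => ?_
          have := sum_q_le (X := X) (S := S) E J y
          rw [cl_eq hy] at this
          linarith
        · rw [sum_const, nsmul_eq_mul, zero_add, mul_comm]
          exact (not_le.1 h).le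
    rw [sum_add_distrib, hind, sum_const, nsmul_eq_mul] at h1
    refine le_of_mul_le_mul_right ?_ hE0
    have h2 : QQ X S E J ≤ ρ * m + X.card * a := h1
    nlinarith
  set Ω := ∑ x ∈ X, ω x with hΩdef
  have hΩ0 : 0 ≤ Ω := sum_nonneg fun x _ => hω0 x
  -- the block
  have hEc : Eᶜ.card = n - E.card := by rw [card_compl, Fintype.card_fin]
  obtain ⟨D, hD, hDt, hDμ⟩ := exists_block Eᶜ (fun i => ∑ x ∈ X, if i ∈ SI x then ω x else 0) t
    (by omega)
  have hμ : ∀ U : Finset (Fin n), ∑ i ∈ U, ∑ x ∈ X, (if i ∈ SI x then ω x else 0) =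
      ∑ x ∈ X, (U ∩ SI x).card * ω x := fun U => by
    rw [sum_comm]
    refine sum_congr rfl fun x _ => ?_
    rw [← sum_filter, sum_const, nsmul_eq_mul, filter_mem_eq_inter]
  rw [hμ, hμ] at hDμ
  let g1 : (Fin n → Bool) → Prop := fun x => ((D ∩ SI x).card : ℝ) ≤ c'
  have hg1 : ∑ x ∈ X, (if g1 x then 0 else ω x) ≤ Ω / 4 := by
    have h1 : ∑ x ∈ X, ((Eᶜ ∩ SI x).card : ℝ) * ω x ≤ s * Ω := by
      rw [hΩdef, mul_sum]
      refine sum_le_sum fun x hx => mul_le_mul_of_nonneg_right ?_ (hω0 x)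
      exact_mod_cast (card_le_card inter_subset_right).trans (hSI x hx)
    have h2 : c' * ∑ x ∈ X, (if g1 x then 0 else ω x) ≤ ∑ x ∈ X, ((D ∩ SI x).card : ℝ) * ω x := by
      rw [mul_sum]
      refine sum_le_sum fun x _ => ?_
      have := hω0 x
      split_ifs with h
      · rw [mul_zero]; positivity
      · exact mul_le_mul_of_nonneg_right (not_le.1 h).le this
    have h3 : (n : ℝ) ≤ 2 * Eᶜ.card := by exact_mod_cast (show n ≤ 2 * Eᶜ.card by omega)
    have h4 : (0 : ℝ) < n := by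
      have : (2 * m : ℝ) ≤ n := by rw [hm]; exact_mod_cast hE
      linarith
    have h5 : 0 ≤ ∑ x ∈ X, ((D ∩ SI x).card : ℝ) * ω x :=
      sum_nonneg fun x _ => mul_nonneg (by positivity) (hω0 x)
    refine le_of_mul_le_mul_left ?_ (mul_pos hc' h4)
    have h6 := mul_le_mul_of_nonneg_left h2 h4.le
    have h7 := mul_le_mul_of_nonneg_left h3 h5
    have h8 := mul_le_mul_of_nonneg_left h1 (show (0 : ℝ) ≤ t by positivity)
    have h9 := mul_le_mul_of_nonneg_left hs hΩ0
    nlinarith
  -- the bad points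
  let R2 : (Fin n → Bool) → Finset (Fin n) → Finset (Fin n) → Finset (Fin n → Bool) :=
    fun x F G => X.filter fun y => (∀ i, i ∉ G → y i = x i) ∧ ∀ j ∈ J, Disjoint (S j y) F
  let bad : (Fin n → Bool) → Prop := fun x => ∃ F ⊆ E, (F.card : ℝ) ≤ 5 * a ∧
    (∀ j ∈ J, Disjoint (S j x) F) ∧ (R2 x F (D \ SI x)).card < K
  have hB2 := card_small D c' θ hθ hθ1
  rw [hDt] at hB2
  have hb1 : ((X.filter fun x => g1 x ∧ bad x).card : ℝ) ≤ w ^ 2 / 16 * X.card := by
    refine le_trans ?_ hbad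
    let Z : Finset (Fin n) → Finset (Fin n) → Finset (Fin n → Bool) := fun F H =>
      X.filter fun x => (∀ j ∈ J, Disjoint (S j x) F) ∧ (R2 x F (D \ H)).card < K
    have h1 : (X.filter fun x => g1 x ∧ bad x) ⊆
        (E.powerset.filter fun F => (F.card : ℝ) ≤ 5 * a).biUnion fun F =>
          (D.powerset.filter fun H => (H.card : ℝ) ≤ c').biUnion fun H => Z F H := by
      intro x hx
      obtain ⟨hx, h1, F, h2, h3, h4, h5⟩ := mem_filter.1 hx
      simp only [mem_biUnion, mem_filter, mem_powerset, Z]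
      exact ⟨F, ⟨h2, h3⟩, D ∩ SI x, ⟨inter_subset_left, h1⟩, hx, h4, by
        rwa [sdiff_inter_self_left]⟩
    have h2 : ∀ F, ∀ H ∈ D.powerset.filter fun H => (H.card : ℝ) ≤ c',
        ((Z F H).card : ℝ) ≤ K * (2 ^ n * Real.exp (-((t - c') * Real.log 2))) := by
      intro F H hH
      rw [mem_filter, mem_powerset] at hH
      have e1 := card_fibres (Z F H) (D \ H) (fun _ => (K : ℝ)⁻¹) fun x hx => by
        rw [sum_const, nsmul_eq_mul, ← div_eq_mul_inv, div_le_one (by positivity)]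
        refine Nat.cast_le.2 (le_trans (card_le_card fun y hy => ?_) (mem_filter.1 hx).2.2.le)
        rw [mem_filter] at hy
        exact mem_filter.2 ⟨(mem_filter.1 hy.1).1, hy.2, (mem_filter.1 hy.1).2.1⟩
      rw [sum_const, nsmul_eq_mul, ← div_eq_mul_inv, div_le_iff₀ (by positivity), mul_comm] at e1
      refine e1.trans (mul_le_mul_of_nonneg_left ?_ (by positivity))
      have e2 : (D \ H).card ≤ n := by simpa using card_le_univ (D \ H)
      have e3 : ((D \ H).card : ℝ) = t - H.card := by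
        rw [card_sdiff_of_subset hH.1, Nat.cast_sub (card_le_card hH.1), hDt]
      rw [pow_sub₀ _ (by norm_num) e2]
      refine mul_le_mul_of_nonneg_left ?_ (by positivity)
      rw [← Real.exp_log (show (0 : ℝ) < 2 ^ (D \ H).card by positivity), ← Real.exp_neg,
        Real.log_pow, Real.exp_le_exp, e3]
      nlinarith [Real.log_pos one_lt_two, hH.2]
    calc _ ≤ ∑ F ∈ E.powerset.filter fun F => (F.card : ℝ) ≤ 5 * a,
          ∑ H ∈ D.powerset.filter fun H => (H.card : ℝ) ≤ c', ((Z F H).card : ℝ) := by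
          exact_mod_cast (card_le_card h1).trans
            (card_biUnion_le.trans (sum_le_sum fun F _ => card_biUnion_le))
      _ ≤ ∑ F ∈ E.powerset.filter fun F => (F.card : ℝ) ≤ 5 * a,
          Real.exp (θ * t - c' * Real.log θ) * (K * (2 ^ n * Real.exp (-((t - c') * Real.log 2)))) := by
          refine sum_le_sum fun F _ => (sum_le_sum (h2 F)).trans ?_
          rw [sum_const, nsmul_eq_mul]
          exact mul_le_mul_of_nonneg_right hB2 (by positivity)
      _ ≤ _ := by
          rw [sum_const, nsmul_eq_mul]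
          exact mul_le_mul_of_nonneg_right (card_small E _ w hw hw1) (by positivity)
  have hb2 : ∑ x ∈ X, (if g1 x ∧ bad x then ω x else 0) ≤ Ω / 4 := by
    have h1 : ∑ x ∈ X, (if g1 x ∧ bad x then ω x else 0) ≤ w ^ 2 / 16 * X.card * m := by
      rw [← sum_filter]
      refine (sum_le_sum fun x _ => hω1 x).trans ?_
      rw [sum_const, nsmul_eq_mul]
      exact mul_le_mul_of_nonneg_right hb1 hE0.le
    have h2 := mul_le_mul_of_nonneg_right hρ1 ha0.le
    nlinarith
  -- the good points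
  set L : ℝ := Real.exp (θ * t - c' * Real.log θ) * K with hLdef
  have hL1 : 1 ≤ L := by
    have h1 : 1 ≤ Real.exp (θ * t - c' * Real.log θ) := Real.one_le_exp (by
      have := Real.log_nonpos hθ.le hθ1
      nlinarith [mul_nonneg hθ.le (show (0 : ℝ) ≤ t by positivity)])
    nlinarith
  have hmain := cls_le (X := X) (S := S) E J
    (fun Y y => 1 / 2 * if g1 y ∧ ¬ bad y then lam Y * ∑ i, mg Y i (!y i) else 0)
    (fun Y y => (-∑ i, Real.log (mg Y i (y i)) - Real.log Y.card) +
      if rich Y then Real.log L + 2 else 0) fun x hx => by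
    set Y := cl X S E J x with hY
    rw [sum_add_distrib, sum_const, nsmul_eq_mul, ← mul_sum, ← sum_filter, ← mul_sum]
    change _ ≤ tc Y + _
    split_ifs with h
    · have hYne : Y.Nonempty := ⟨x, self_mem_cl _ _ hx⟩
      have := final_cls Y (Y.filter fun y => g1 y ∧ ¬ bad y) (filter_subset _ _) (lam Y) L (5 * a)
        (hlam0 _) (hlam1 _) hL1 (by rw [mul_assoc, ← hlam Y hYne h]) ?_
      · linarith
      intro F hF hFc y hy
      have hq : ∀ y ∈ Y, ∀ i ∈ F, mg (cl X S E J y) i (!y i) ≠ 0 := by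
        intro y hy i hi h0
        rw [cl_eq hy, ← hY] at h0
        have := hF i hi
        cases hb : y i <;> rw [hb] at h0 <;> simp only [Bool.not_true, Bool.not_false] at h0 <;>
          simp [h0] at this
      have hFE : F ⊆ E := fun i hi => by
        by_contra hi'
        exact hq x (self_mem_cl _ _ hx) i hi (q_off hi')
      let W : Finset (Fin n) → Finset (Fin n → Bool) := fun H =>
        ((Y.filter fun y => g1 y ∧ ¬ bad y).filter fun y' => ∀ i, i ∉ F → y' i = y i).filter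
          fun y' => D ∩ SI y' = H
      have h1 : ((Y.filter fun y => g1 y ∧ ¬ bad y).filter fun y' => ∀ i, i ∉ F → y' i = y i) ⊆
          (D.powerset.filter fun H => (H.card : ℝ) ≤ c').biUnion W := by
        intro y' hy'
        exact mem_biUnion.2 ⟨D ∩ SI y', mem_filter.2 ⟨mem_powerset.2 inter_subset_left,
          (mem_filter.1 (mem_filter.1 hy').1).2.1⟩, mem_filter.2 ⟨hy', rfl⟩⟩
      have h2 : ∀ H, (W H).card ≤ K := by
        intro H
        rcases (W H).eq_empty_or_nonempty with e | ⟨y', hy'⟩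
        · simp [e]
        simp only [W, mem_filter] at hy'
        have e1 := (small_side A hA K hK J F (D \ SI y') (disjoint_left.2 fun i hi hi' =>
          mem_compl.1 (hD (mem_sdiff.1 hi').1) (hFE hi)) y').resolve_right fun h' =>
            hy'.1.1.2.2 ⟨F, hFE, hFc, fun j hj => disjoint_left.2 fun i hi hi' =>
              hq y' hy'.1.1.1 i hi' (q_term hj hi), h'⟩
        refine le_trans (card_le_card fun y'' hy'' => ?_) e1.le
        simp only [W, mem_filter] at hy''
        refine mem_filter.2 ⟨(mem_cl.1 hy''.1.1.1).1,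
          fun i hi => (hy''.1.2 i hi).trans (hy'.1.2 i hi).symm, disjoint_left.2 fun i hi hi' => ?_⟩
        rw [mem_sdiff] at hi'
        have : i ∈ D ∩ SI y'' := mem_inter.2 ⟨hi'.1, hi⟩
        rw [hy''.2, ← hy'.2] at this
        exact hi'.2 (mem_inter.1 this).2
      calc _ ≤ ∑ H ∈ D.powerset.filter fun H => (H.card : ℝ) ≤ c', (K : ℝ) := by
            exact_mod_cast (card_le_card h1).trans
              (card_biUnion_le.trans (sum_le_sum fun H _ => h2 H))
        _ ≤ _ := by
            rw [sum_const, nsmul_eq_mul]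
            exact mul_le_mul_of_nonneg_right hB2 (by positivity)
    · simp only [lam, if_neg h]
      simpa using tc_nonneg Y
  rw [sum_add_distrib, hind, ← mul_sum] at hmain
  have hsplit : Ω = ∑ x ∈ X, (if g1 x then 0 else ω x) + ∑ x ∈ X, (if g1 x ∧ bad x then ω x else 0) +
      ∑ x ∈ X, (if g1 x ∧ ¬ bad x then ω x else 0) := by
    rw [← sum_add_distrib, ← sum_add_distrib]
    refine sum_congr rfl fun x _ => ?_
    by_cases h1 : g1 x <;> by_cases h2 : bad x <;> simp [h1, h2]
  have h1 : 1 / 2 * ∑ x ∈ X, (if g1 x ∧ ¬ bad x then ω x else 0) ≤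
      TT X S E J + ρ * (Real.log L + 2) := hmain
  have hρ0 : 0 ≤ ρ := by positivity
  have h2 := mul_le_mul_of_nonneg_left hL hρ0
  have h3 := mul_le_mul_of_nonneg_right hρ1 ha0.le
  have h4 := mul_lt_mul_of_pos_right hη (mul_pos hX0 hE0)
  nlinarith

end Pool.Agent.MP_6b3410_lc.H75
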