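import Mathlib

/-!
Proof trees of NAND networks of arbitrary fan-in.
-/

namespace Pool.Agent.MP_6b3410_lc.H75

/-- `ProofTree I x u β L`: in the NAND network whose gate `g` has the set of inputs `I g`, on the
input `x`, there is a proof tree of the claim that the node `u` (a variable or a gate) has the
value `β`, and `L` is the multiset of the variables at its leaves.  A variable has the value given
by `x`; a gate is true because of one false input; a gate is false because all its inputs are
true. -/
inductive ProofTree {V : Type} {s : ℕ} (I : Fin s → Finset (V ⊕ Fin s)) (x : V → Bool) :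
    V ⊕ Fin s → Bool → Multiset V → Prop
  | leaf (v : V) : ProofTree I x (Sum.inl v) (x v) {v}
  | one (g : Fin s) (u : V ⊕ Fin s) (L : Multiset V) : u ∈ I g → ProofTree I x u false L →
      ProofTree I x (Sum.inr g) true L
  | all (g : Fin s) (L : V ⊕ Fin s → Multiset V) : (∀ u ∈ I g, ProofTree I x u true (L u)) →
      ProofTree I x (Sum.inr g) false (∑ u ∈ I g, L u)

end Pool.Agent.MP_6b3410_lc.H75
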