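import Mathlib
import Pool.Agent.MP_6b3410_lc.H75.Spec
import Pool.Agent.MP_6b3410_lc.H75.Tree
import Pool.Agent.MP_6b3410_lc.H64.Decomp

/-!
Cutting derivations in a system of rules with at most two premises, and the system of a NAND
network of arbitrary fan-in.
-/

namespace Pool.Agent.MP_6b3410_lc.H75

open Classical

section gram

variable {Nd : Type} {n : ℕ}

/-- derivations from hypotheses in `Γ` -/
inductive Der (Lf : (Fin n → Bool) → Nd → List (Fin n) → Prop) (R1 : Nd → Nd → Prop)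
    (R2 : Nd → Nd → Nd → Prop) (Γ : Set Nd) (z : Fin n → Bool) : Nd → List (Fin n) → Prop
  | hyp (ν : Nd) : ν ∈ Γ → Der Lf R1 R2 Γ z ν []
  | leaf (ν : Nd) (L : List (Fin n)) : Lf z ν L → Der Lf R1 R2 Γ z ν L
  | un (ν μ : Nd) (L : List (Fin n)) : R1 ν μ → Der Lf R1 R2 Γ z μ L → Der Lf R1 R2 Γ z ν L
  | bin (ν μ μ' : Nd) (L M : List (Fin n)) : R2 ν μ μ' → Der Lf R1 R2 Γ z μ L →
      Der Lf R1 R2 Γ z μ' M → Der Lf R1 R2 Γ z ν (L ++ M)

variable {Lf : (Fin n → Bool) → Nd → List (Fin n) → Prop} {R1 : Nd → Nd → Prop}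
  {R2 : Nd → Nd → Nd → Prop}

theorem Der.mono {Γ Γ' : Set Nd} {z : Fin n → Bool} {ν L} (h : Der Lf R1 R2 Γ z ν L)
    (hΓ : Γ ⊆ Γ') : Der Lf R1 R2 Γ' z ν L := by
  induction h with
  | hyp ν h => exact .hyp ν (hΓ h)
  | leaf ν L h => exact .leaf ν L h
  | un ν μ L h _ ih => exact .un ν μ L h ih
  | bin ν μ μ' L M h _ _ ih1 ih2 => exact .bin ν μ μ' L M h ih1 ih2

theorem Der.loc (hloc : ∀ z z' ν L, Lf z ν L → (∀ i ∈ L, z' i = z i) → Lf z' ν L)
    {Γ : Set Nd} {z z' : Fin n → Bool} {ν L} (h : Der Lf R1 R2 Γ z ν L)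
    (hz : ∀ i ∈ L, z' i = z i) : Der Lf R1 R2 Γ z' ν L := by
  induction h with
  | hyp ν h => exact .hyp ν h
  | leaf ν L h => exact .leaf ν L (hloc _ _ _ _ h hz)
  | un ν μ L h _ ih => exact .un ν μ L h (ih hz)
  | bin ν μ μ' L M h _ _ ih1 ih2 =>
    exact .bin ν μ μ' L M h (ih1 fun i hi => hz i (List.mem_append_left _ hi))
      (ih2 fun i hi => hz i (List.mem_append_right _ hi))

theorem Der.sound {P : Nd → Prop} {z : Fin n → Bool} (h0 : ∀ ν L, Lf z ν L → P ν)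
    (h1 : ∀ ν μ, R1 ν μ → P μ → P ν) (h2 : ∀ ν μ μ', R2 ν μ μ' → P μ → P μ' → P ν)
    {Γ : Set Nd} {ν L} (h : Der Lf R1 R2 Γ z ν L) (hΓ : ∀ μ ∈ Γ, P μ) : P ν := by
  induction h with
  | hyp ν h => exact hΓ ν h
  | leaf ν L h => exact h0 ν L h
  | un ν μ L h _ ih => exact h1 ν μ h ih
  | bin ν μ μ' L M h _ _ ih1 ih2 => exact h2 ν μ μ' h ih1 ih2

theorem Der.cut (hlen : ∀ z ν L, Lf z ν L → L.length ≤ 1) {Γ : Set Nd} {z : Fin n → Bool} {ν L}
    {l : ℕ} (hl : 1 ≤ l) (h : Der Lf R1 R2 Γ z ν L) (hL : l < L.length) :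
    ∃ μ L1 L2, Der Lf R1 R2 Γ z μ L1 ∧ L1.length ≤ l ∧ l < 2 * L1.length ∧
      Der Lf R1 R2 (insert μ Γ) z ν L2 ∧ L1.length + L2.length = L.length := by
  induction h with
  | hyp ν h => simp at hL
  | leaf ν L h => have := hlen _ _ _ h; omega
  | un ν μ0 L h _ ih =>
    obtain ⟨μ, L1, L2, h1, h2, h3, h4, h5⟩ := ih hL
    exact ⟨μ, L1, L2, h1, h2, h3, .un ν μ0 _ h h4, h5⟩
  | bin ν μ1 μ2 L M h p1 p2 ih1 ih2 =>
    rw [List.length_append] at hL ⊢
    by_cases c1 : l < L.length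
    · obtain ⟨μ, L1, L2, h1, h2, h3, h4, h5⟩ := ih1 c1
      refine ⟨μ, L1, L2 ++ M, h1, h2, h3,
        .bin ν _ _ _ _ h h4 (p2.mono (Set.subset_insert _ _)), ?_⟩
      rw [List.length_append]; omega
    by_cases c2 : l < M.length
    · obtain ⟨μ, L1, L2, h1, h2, h3, h4, h5⟩ := ih2 c2
      refine ⟨μ, L1, L ++ L2, h1, h2, h3,
        .bin ν _ _ _ _ h (p1.mono (Set.subset_insert _ _)) h4, ?_⟩
      rw [List.length_append]; omega
    by_cases c3 : M.length ≤ L.length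
    · refine ⟨μ1, L, [] ++ M, p1, by omega, by omega,
        .bin ν _ _ _ _ h (.hyp _ (Set.mem_insert _ _)) (p2.mono (Set.subset_insert _ _)), by simp⟩
    · refine ⟨μ2, M, L ++ [], p2, by omega, by omega,
        .bin ν _ _ _ _ h (p1.mono (Set.subset_insert _ _)) (.hyp _ (Set.mem_insert _ _)), ?_⟩
      simp; omega

theorem pieces (hlen : ∀ z ν L, Lf z ν L → L.length ≤ 1) {z : Fin n → Bool} {l : ℕ} (hl : 1 ≤ l)
    (r : ℕ) : ∀ (Γ : Set Nd) ν L, Der Lf R1 R2 Γ z ν L → 2 * L.length ≤ (r + 2) * l →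
      ∃ π : ℕ → Nd, π r = ν ∧ ∀ j, j ≤ r → ∃ M, M.length ≤ l ∧
        Der Lf R1 R2 (Γ ∪ {μ | ∃ i, i < j ∧ π i = μ}) z (π j) M := by
  induction r with
  | zero =>
    intro Γ ν L h hL
    exact ⟨fun _ => ν, rfl, fun j _ => ⟨L, by omega, h.mono Set.subset_union_left⟩⟩
  | succ r ih =>
    intro Γ ν L h hL
    by_cases c : L.length ≤ l
    · exact ⟨fun _ => ν, rfl, fun j _ => ⟨L, c, h.mono Set.subset_union_left⟩⟩
    obtain ⟨μ, L1, L2, h1, h2, h3, h4, h5⟩ := h.cut hlen hl (not_le.mp c)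
    have e : (r + 1 + 2) * l = (r + 2) * l + l := by ring
    obtain ⟨π, hπ, hp⟩ := ih _ ν L2 h4 (by omega)
    refine ⟨fun j => Nat.casesOn j μ π, hπ, fun j hj => ?_⟩
    cases j with
    | zero => exact ⟨L1, h2, h1.mono Set.subset_union_left⟩
    | succ j =>
      obtain ⟨M, hM, hq⟩ := hp j (by omega)
      refine ⟨M, hM, hq.mono ?_⟩
      rintro x ((rfl | hx) | ⟨i, hi, rfl⟩)
      · exact Or.inr ⟨0, by omega, rfl⟩
      · exact Or.inl hx
      · exact Or.inr ⟨i + 1, by omega, rfl⟩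

theorem gram_decomp [Fintype Nd] (hlen : ∀ z ν L, Lf z ν L → L.length ≤ 1)
    (hloc : ∀ z z' ν L, Lf z ν L → (∀ i ∈ L, z' i = z i) → Lf z' ν L)
    (P : (Fin n → Bool) → Nd → Prop) (h0 : ∀ z ν L, Lf z ν L → P z ν)
    (h1 : ∀ z ν μ, R1 ν μ → P z μ → P z ν) (h2 : ∀ z ν μ μ', R2 ν μ μ' → P z μ → P z μ' → P z ν)
    (root : Nd) (f : Set (Fin n → Bool)) (r l : ℕ) (hr : 0 < r) (hl : 0 < l)
    (hs : ∀ z, P z root → z ∈ f)
    (hc : ∀ z ∈ f, ∃ L, Der Lf R1 R2 ∅ z root L ∧ 2 * L.length ≤ (r + 1) * l) :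
    ∃ A : Fin r → Set (Fin n → Bool), (∀ j, Narrow l (A j)) ∧ (⋂ j, A j) ⊆ f ∧
      f.ncard ≤ Fintype.card Nd ^ r * (⋂ j, A j).ncard := by
  obtain ⟨r, rfl⟩ : ∃ r', r = r' + 1 := ⟨r - 1, by omega⟩
  let pc : (Fin (r + 1) → Nd) → Fin (r + 1) → Set (Fin n → Bool) := fun p j =>
    {z | ∃ M, M.length ≤ l ∧ Der Lf R1 R2 {μ | ∃ i, i < j ∧ p i = μ} z (p j) M}
  let Q : Finset (Fin (r + 1) → Nd) := Finset.univ.filter fun p => p (Fin.last r) = root
  have hQ : Q.Nonempty := ⟨fun _ => root, by simp [Q]⟩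
  obtain ⟨p, hp, hmax⟩ := Finset.exists_max_image Q (fun p => (⋂ j, pc p j).ncard) hQ
  refine ⟨pc p, fun j => ?_, fun z hz => ?_, ?_⟩
  · rintro z ⟨M, hM, h⟩
    exact ⟨M.toFinset, (List.toFinset_card_le M).trans hM, fun z' hz =>
      ⟨M, hM, h.loc hloc fun i hi => hz i (List.mem_toFinset.mpr hi)⟩⟩
  · have : ∀ j, P z (p j) := by
      intro j
      induction j using WellFoundedLT.induction with
      | ind j ih =>
        obtain ⟨M, -, h⟩ := Set.mem_iInter.mp hz j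
        refine h.sound (h0 z) (h1 z) (h2 z) ?_
        rintro μ ⟨i, hi, rfl⟩
        exact ih i hi
    exact hs z ((Finset.mem_filter.mp hp).2 ▸ this (Fin.last r))
  · have hcov : f.toFinset ⊆ Q.biUnion fun q => (⋂ j, pc q j).toFinset := by
      intro z hz
      obtain ⟨L, hL, hk⟩ := hc z (Set.mem_toFinset.mp hz)
      obtain ⟨π, hπ, hq⟩ := pieces hlen hl r ∅ _ _ hL hk
      refine Finset.mem_biUnion.mpr ⟨fun j => π j, ?_, ?_⟩
      · simp [Q, hπ]
      · refine Set.mem_toFinset.mpr (Set.mem_iInter.mpr fun j => ?_)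
        obtain ⟨M, hM, h⟩ := hq j (Nat.lt_succ_iff.mp j.2)
        refine ⟨M, hM, h.mono ?_⟩
        rintro x (hx | ⟨i, hi, rfl⟩)
        · exact absurd hx (Set.notMem_empty _)
        · exact ⟨⟨i, hi.trans j.2⟩, hi, rfl⟩
    have hcard : Q.card ≤ Fintype.card Nd ^ (r + 1) := by
      refine (Finset.card_filter_le _ _).trans ?_
      simp
    calc f.ncard = f.toFinset.card := Set.ncard_eq_toFinset_card' f
      _ ≤ _ := Finset.card_le_card hcov
      _ ≤ ∑ q ∈ Q, (⋂ j, pc q j).toFinset.card := Finset.card_biUnion_le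
      _ ≤ ∑ q ∈ Q, (⋂ j, pc p j).ncard := by
        refine Finset.sum_le_sum fun q hq => ?_
        rw [← Set.ncard_eq_toFinset_card']
        exact hmax q hq
      _ = Q.card * (⋂ j, pc p j).ncard := by simp
      _ ≤ _ := Nat.mul_le_mul_right _ hcard

end gram

theorem net_decomp {V : Type} [Fintype V] [DecidableEq V] {s : ℕ} (I : Fin s → Finset (V ⊕ Fin s))
    (o : Fin s) {n : ℕ} (d k r l : ℕ) (pr : V → (Fin n × Bool) ⊕ Bool) (f : Set (Fin n → Bool))
    (hr : 0 < r) (hl : 0 < l) (hlen : 2 * (d * k * n) ≤ (r + 1) * l)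
    (hd : ∀ i, (Finset.univ.filter fun e => ∃ σ, pr e = Sum.inl (i, σ)).card ≤ d)
    (val : (Fin n → Bool) → Fin s → Bool)
    (hval : ∀ z g, val z g = true ↔ ∃ u ∈ I g, Sum.elim (app pr z) (val z) u = false)
    (hs : ∀ z, val z o = true → z ∈ f)
    (hc : ∀ z ∈ f, ∃ L, ProofTree I (app pr z) (Sum.inr o) true L ∧ ∀ e, L.count e ≤ k) :
    ∃ A : Fin r → Set (Fin n → Bool), (∀ j, Narrow l (A j)) ∧ (⋂ j, A j) ⊆ f ∧
      f.ncard ≤ (4 * (Fintype.card V + s) ^ 2) ^ r * (⋂ j, A j).ncard := by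
  set D := Fintype.card V + s with hD
  let ch : Fin s → List (V ⊕ Fin s) := fun g => (I g).toList
  have hch : ∀ g, (ch g).length ≤ D := fun g => by
    simpa [ch, hD] using Finset.card_le_univ (I g)
  let Nd : Type := ((V ⊕ Fin s) × Bool) ⊕ (Fin s × Fin (D + 1))
  let Lf : (Fin n → Bool) → Nd → List (Fin n) → Prop := fun z ν L =>
    (∃ v, ν = Sum.inl (Sum.inl v, app pr z v) ∧ L = H64.lst pr v) ∨
      ∃ g j, ν = Sum.inr (g, j) ∧ (ch g).drop j.val = [] ∧ L = []
  let R1 : Nd → Nd → Prop := fun ν μ =>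
    (∃ g, ∃ u ∈ I g, ν = Sum.inl (Sum.inr g, true) ∧ μ = Sum.inl (u, false)) ∨
      ∃ g, ν = Sum.inl (Sum.inr g, false) ∧ μ = Sum.inr (g, 0)
  let R2 : Nd → Nd → Nd → Prop := fun ν μ μ' => ∃ g j j' u, ν = Sum.inr (g, j) ∧
    μ = Sum.inl (u, true) ∧ μ' = Sum.inr (g, j') ∧ (ch g).drop j.val = u :: (ch g).drop j'.val
  let wt : Multiset V → ℕ := fun L => (L.map fun e => (H64.lst pr e).length).sum
  have hcomp : ∀ z u β L, ProofTree I (app pr z) u β L →
      ∃ M, Der Lf R1 R2 ∅ z (Sum.inl (u, β)) M ∧ M.length ≤ wt L := by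
    intro z u β L h
    induction h with
    | leaf v => exact ⟨_, .leaf _ _ (Or.inl ⟨v, rfl, rfl⟩), by simp [wt]⟩
    | one g u L hu _ ih =>
      obtain ⟨M, h1, h2⟩ := ih
      exact ⟨M, .un _ _ _ (Or.inl ⟨g, u, hu, rfl, rfl⟩) h1, h2⟩
    | all g L _ ih =>
      have key : ∀ t : List (V ⊕ Fin s), ∀ j : Fin (D + 1), (ch g).drop j.val = t →
          ∃ M, Der Lf R1 R2 ∅ z (Sum.inr (g, j)) M ∧ M.length ≤ (t.map fun u => wt (L u)).sum := by
        intro t
        induction t with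
        | nil => exact fun j hj => ⟨[], .leaf _ _ (Or.inr ⟨g, j, rfl, hj, rfl⟩), by simp⟩
        | cons u t iht =>
          intro j hj
          have e1 : j.val < (ch g).length := by
            by_contra h
            rw [List.drop_eq_nil_of_le (not_lt.1 h)] at hj
            simp at hj
          have e2 := hch g
          have e3 : (ch g).drop (j.val + 1) = t := by
            rw [← List.tail_drop, hj]; rfl
          obtain ⟨M, h1, h2⟩ := iht ⟨j.val + 1, by omega⟩ e3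
          obtain ⟨M', h3, h4⟩ := ih u (Finset.mem_toList.1
            (List.mem_of_mem_drop (hj ▸ List.mem_cons_self)))
          refine ⟨M' ++ M, .bin _ _ _ _ _ ⟨g, j, _, u, rfl, rfl, rfl, by rw [hj, e3]⟩ h3 h1, ?_⟩
          simp only [List.length_append, List.map_cons, List.sum_cons]
          omega
      obtain ⟨M, h1, h2⟩ := key (ch g) 0 rfl
      refine ⟨M, .un _ _ _ (Or.inr ⟨g, rfl, rfl⟩) h1, h2.trans (le_of_eq ?_)⟩
      simp only [ch, Finset.sum_map_toList]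
      induction I g using Finset.induction_on with
      | empty => simp [wt]
      | insert a t ha iht => simp only [Finset.sum_insert ha, iht, wt, Multiset.map_add,
          Multiset.sum_add]
  obtain ⟨A, h1, h2, h3⟩ := gram_decomp (Lf := Lf) (R1 := R1) (R2 := R2)
    (by
      rintro z ν L (⟨v, -, rfl⟩ | ⟨g, j, -, -, rfl⟩)
      · exact H64.lst_len v
      · simp)
    (by
      rintro z z' ν L (⟨v, h1, rfl⟩ | h) hz
      · exact Or.inl ⟨v, by rw [H64.app_eq v hz]; exact h1, rfl⟩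
      · exact Or.inr h)
    (fun z (ν : Nd) => Sum.elim
      (fun p : (V ⊕ Fin s) × Bool => Sum.elim (app pr z) (val z) p.1 = p.2)
      (fun p : Fin s × Fin (D + 1) =>
        ∀ u ∈ (ch p.1).drop p.2.val, Sum.elim (app pr z) (val z) u = true) ν)
    (by
      rintro z ν L (⟨v, rfl, -⟩ | ⟨g, j, rfl, h, -⟩)
      · rfl
      · simp [h])
    (by
      rintro z ν μ (⟨g, u, hu, rfl, rfl⟩ | ⟨g, rfl, rfl⟩) h
      · exact (hval z g).2 ⟨u, hu, h⟩
      · refine Bool.eq_false_iff.2 fun h' => ?_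
        obtain ⟨u, hu, h''⟩ := (hval z g).1 h'
        have := h u (Finset.mem_toList.2 hu)
        simp [h''] at this)
    (by
      rintro z ν μ μ' ⟨g, j, j', u, rfl, rfl, rfl, h⟩ h1 h2 u' hu'
      simp only [h, List.mem_cons] at hu'
      rcases hu' with rfl | hu'
      · exact h1
      · exact h2 u' hu')
    (Sum.inl (Sum.inr o, true)) f r l hr hl hs (fun z hz => by
      obtain ⟨L, h1, h2⟩ := hc z hz
      obtain ⟨M, h3, h4⟩ := hcomp z _ _ _ h1
      refine ⟨M, h3, le_trans ?_ hlen⟩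
      have h5 := H64.len_le hd L.toList fun e => by
        have := h2 e
        rw [← Multiset.coe_toList L, Multiset.coe_count] at this
        convert this
      have h6 : wt L = (L.toList.flatMap (H64.lst pr)).length := by
        rw [List.length_flatMap]
        conv_lhs => rw [← Multiset.coe_toList L]
        simp only [wt, Multiset.map_coe, Multiset.sum_coe]
      omega)
  refine ⟨A, h1, h2, h3.trans (Nat.mul_le_mul_right _ (Nat.pow_le_pow_left ?_ r))⟩
  have e1 : Fintype.card Nd = D * 2 + s * (D + 1) := by simp [Nd, hD]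
  have e2 : s ≤ D := by omega
  have e3 : 0 < s := o.pos
  rw [e1]
  nlinarith

lemma exists_val_net {V : Type} {s : ℕ} (I : Fin s → Finset (V ⊕ Fin s))
    (hac : ∀ g j : Fin s, Sum.inr j ∈ I g → j < g) (x : V → Bool) :
    ∃ val : Fin s → Bool, ∀ g, val g = true ↔ ∃ u ∈ I g, Sum.elim x val u = false := by
  let F : (Fin s → Bool) → Fin s → Bool := fun val g => decide (∃ u ∈ I g, Sum.elim x val u = false)
  have hF : ∀ u v g, (∀ j, j < g → u j = v j) → F u g = F v g := by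
    intro u v g huv
    refine decide_eq_decide.2 (exists_congr fun w => and_congr_right fun hw => ?_)
    rcases w with i | j
    · rfl
    · simp [huv j (hac g j hw)]
  have : ∀ n : ℕ, ∀ g : Fin s, g.val < n →
      F^[n] (fun _ => false) g = F^[n + 1] (fun _ => false) g := by
    intro n
    induction n with
    | zero => intro g h; omega
    | succ n ih =>
      intro g hg
      rw [Function.iterate_succ_apply' F (n + 1), Function.iterate_succ_apply' F n]
      refine hF _ _ _ fun j hj => ?_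
      have := ih j (by have : j.val < g.val := hj; omega)
      rwa [Function.iterate_succ_apply' F n] at this
  exact ⟨F^[s] fun _ => false, fun g => by
    rw [this s g g.2, Function.iterate_succ_apply']; exact decide_eq_true_iff⟩

end Pool.Agent.MP_6b3410_lc.H75
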