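import Mathlib
import Pool.Agent.MP_6b3410_lc.H75.Gram

/-!
Cutting proof trees of a NAND network of arbitrary fan-in, counting the relevant leaves only.
-/

namespace Pool.Agent.MP_6b3410_lc.H75

open Classical

theorem net_decomp2 {V : Type} [Fintype V] [DecidableEq V] {s : ℕ} (I : Fin s → Finset (V ⊕ Fin s))
    (o : Fin s) {n : ℕ} (W r l : ℕ) (pr : V → (Fin n × Bool) ⊕ Bool) (f : Set (Fin n → Bool))
    (hr : 0 < r) (hl : 0 < l) (hlen : 2 * W ≤ (r + 1) * l)
    (T : Finset V) (hT : ∀ e p, pr e = Sum.inl p → e ∈ T)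
    (val : (Fin n → Bool) → Fin s → Bool)
    (hval : ∀ z g, val z g = true ↔ ∃ u ∈ I g, Sum.elim (app pr z) (val z) u = false)
    (hs : ∀ z, val z o = true → z ∈ f)
    (hc : ∀ z ∈ f, ∃ L, ProofTree I (app pr z) (Sum.inr o) true L ∧
      Multiset.card (L.filter (· ∈ T)) ≤ W) :
    ∃ A : Fin r → Set (Fin n → Bool), (∀ j, Narrow l (A j)) ∧ (⋂ j, A j) ⊆ f ∧
      f.ncard ≤ (4 * (Fintype.card V + s) ^ 2) ^ r * (⋂ j, A j).ncard := by
  set D := Fintype.card V + s with hD
  let ch : Fin s → List (V ⊕ Fin s) := fun g => (I g).toList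
  have hch : ∀ g, (ch g).length ≤ D := fun g => by
    simpa [ch, hD] using Finset.card_le_univ (I g)
  let Nd : Type := ((V ⊕ Fin s) × Bool) ⊕ (Fin s × Fin (D + 1))
  let Lf : (Fin n → Bool) → Nd → List (Fin n) → Prop := fun z ν L =>
    (∃ v, ν = Sum.inl (Sum.inl v, app pr z v) ∧ L = H64.lst pr v) ∨
      ∃ g j, ν = Sum.inr (g, j) ∧ (ch g).drop j.val = [] ∧ L = []
  let R1 : Nd → Nd → Prop := fun ν μ =>
    (∃ g, ∃ u ∈ I g, ν = Sum.inl (Sum.inr g, true) ∧ μ = Sum.inl (u, false)) ∨
      ∃ g, ν = Sum.inl (Sum.inr g, false) ∧ μ = Sum.inr (g, 0)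
  let R2 : Nd → Nd → Nd → Prop := fun ν μ μ' => ∃ g j j' u, ν = Sum.inr (g, j) ∧
    μ = Sum.inl (u, true) ∧ μ' = Sum.inr (g, j') ∧ (ch g).drop j.val = u :: (ch g).drop j'.val
  let wt : Multiset V → ℕ := fun L => (L.map fun e => (H64.lst pr e).length).sum
  have hcomp : ∀ z u β L, ProofTree I (app pr z) u β L →
      ∃ M, Der Lf R1 R2 ∅ z (Sum.inl (u, β)) M ∧ M.length ≤ wt L := by
    intro z u β L h
    induction h with
    | leaf v => exact ⟨_, .leaf _ _ (Or.inl ⟨v, rfl, rfl⟩), by simp [wt]⟩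
    | one g u L hu _ ih =>
      obtain ⟨M, h1, h2⟩ := ih
      exact ⟨M, .un _ _ _ (Or.inl ⟨g, u, hu, rfl, rfl⟩) h1, h2⟩
    | all g L _ ih =>
      have key : ∀ t : List (V ⊕ Fin s), ∀ j : Fin (D + 1), (ch g).drop j.val = t →
          ∃ M, Der Lf R1 R2 ∅ z (Sum.inr (g, j)) M ∧ M.length ≤ (t.map fun u => wt (L u)).sum := by
        intro t
        induction t with
        | nil => exact fun j hj => ⟨[], .leaf _ _ (Or.inr ⟨g, j, rfl, hj, rfl⟩), by simp⟩
        | cons u t iht =>
          intro j hj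
          have e1 : j.val < (ch g).length := by
            by_contra h
            rw [List.drop_eq_nil_of_le (not_lt.1 h)] at hj
            simp at hj
          have e2 := hch g
          have e3 : (ch g).drop (j.val + 1) = t := by
            rw [← List.tail_drop, hj]; rfl
          obtain ⟨M, h1, h2⟩ := iht ⟨j.val + 1, by omega⟩ e3
          obtain ⟨M', h3, h4⟩ := ih u (Finset.mem_toList.1
            (List.mem_of_mem_drop (hj ▸ List.mem_cons_self)))
          refine ⟨M' ++ M, .bin _ _ _ _ _ ⟨g, j, _, u, rfl, rfl, rfl, by rw [hj, e3]⟩ h3 h1, ?_⟩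
          simp only [List.length_append, List.map_cons, List.sum_cons]
          omega
      obtain ⟨M, h1, h2⟩ := key (ch g) 0 rfl
      refine ⟨M, .un _ _ _ (Or.inr ⟨g, rfl, rfl⟩) h1, h2.trans (le_of_eq ?_)⟩
      simp only [ch, Finset.sum_map_toList]
      induction I g using Finset.induction_on with
      | empty => simp [wt]
      | insert a t ha iht => simp only [Finset.sum_insert ha, iht, wt, Multiset.map_add,
          Multiset.sum_add]
  obtain ⟨A, h1, h2, h3⟩ := gram_decomp (Lf := Lf) (R1 := R1) (R2 := R2)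
    (by
      rintro z ν L (⟨v, -, rfl⟩ | ⟨g, j, -, -, rfl⟩)
      · exact H64.lst_len v
      · simp)
    (by
      rintro z z' ν L (⟨v, h1, rfl⟩ | h) hz
      · exact Or.inl ⟨v, by rw [H64.app_eq v hz]; exact h1, rfl⟩
      · exact Or.inr h)
    (fun z (ν : Nd) => Sum.elim
      (fun p : (V ⊕ Fin s) × Bool => Sum.elim (app pr z) (val z) p.1 = p.2)
      (fun p : Fin s × Fin (D + 1) =>
        ∀ u ∈ (ch p.1).drop p.2.val, Sum.elim (app pr z) (val z) u = true) ν)
    (by
      rintro z ν L (⟨v, rfl, -⟩ | ⟨g, j, rfl, h, -⟩)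
      · rfl
      · simp [h])
    (by
      rintro z ν μ (⟨g, u, hu, rfl, rfl⟩ | ⟨g, rfl, rfl⟩) h
      · exact (hval z g).2 ⟨u, hu, h⟩
      · refine Bool.eq_false_iff.2 fun h' => ?_
        obtain ⟨u, hu, h''⟩ := (hval z g).1 h'
        have := h u (Finset.mem_toList.2 hu)
        simp [h''] at this)
    (by
      rintro z ν μ μ' ⟨g, j, j', u, rfl, rfl, rfl, h⟩ h1 h2 u' hu'
      simp only [h, List.mem_cons] at hu'
      rcases hu' with rfl | hu'
      · exact h1
      · exact h2 u' hu')
    (Sum.inl (Sum.inr o, true)) f r l hr hl hs (fun z hz => by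
      obtain ⟨L, h1, h2⟩ := hc z hz
      obtain ⟨M, h3, h4⟩ := hcomp z _ _ _ h1
      refine ⟨M, h3, le_trans ?_ hlen⟩
      have h5 : ∀ L : Multiset V, wt L ≤ Multiset.card (L.filter (· ∈ T)) := by
        intro L
        induction L using Multiset.induction_on with
        | empty => simp [wt]
        | cons e L ih =>
          simp only [wt, Multiset.map_cons, Multiset.sum_cons] at ih ⊢
          by_cases he : e ∈ T
          · have := H64.lst_len (pr := pr) e
            rw [Multiset.filter_cons_of_pos (p := fun x => x ∈ T) _ he, Multiset.card_cons]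
            omega
          · have : H64.lst pr e = [] := by
              unfold H64.lst
              cases hp : pr e with
              | inl p => exact absurd (hT e p hp) he
              | inr c => rfl
            rw [Multiset.filter_cons_of_neg (p := fun x => x ∈ T) _ he, this]
            simpa using ih
      have h6 := h5 L
      omega)
  refine ⟨A, h1, h2, h3.trans (Nat.mul_le_mul_right _ (Nat.pow_le_pow_left ?_ r))⟩
  have e1 : Fintype.card Nd = D * 2 + s * (D + 1) := by simp [Nd, hD]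
  have e2 : s ≤ D := by omega
  have e3 : 0 < s := o.pos
  rw [e1]
  nlinarith

end Pool.Agent.MP_6b3410_lc.H75
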