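import Mathlib
import Pool.Agent.MP_6b3410_lc.H75.Final
import Pool.Agent.MP_6b3410_lc.H75.ChainApp
import Pool.Agent.MP_6b3410_lc.H21.Chain

/-!
The rectangle theorem.
-/

namespace Pool.Agent.MP_6b3410_lc.H75

open Finset

lemma exists_canon {n l : ℕ} {A : Set (Fin n → Bool)} (hA : Narrow l A) :
    ∃ S : (Fin n → Bool) → Finset (Fin n),
      (∀ x ∈ A, (S x).card ≤ l ∧ ∀ y : Fin n → Bool, (∀ i ∈ S x, y i = x i) → y ∈ A) ∧
      ∀ x ∈ A, ∀ y ∈ A, (∀ i ∈ S x, y i = x i) → (∀ i ∈ S y, y i = x i) → S y = S x := by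
  let trm : Finset (Fin n) → (Fin n → Bool) → Fin n → Option Bool :=
    fun T x i => if i ∈ T then some (x i) else none
  let rk : (Fin n → Option Bool) → ℕ := fun z => (Fintype.equivFin _ z).val
  have hrk : Function.Injective rk := fun z z' h => (Fintype.equivFin _).injective (Fin.ext h)
  have : ∀ x, ∃ T : Finset (Fin n), x ∈ A →
      (T.card ≤ l ∧ ∀ y : Fin n → Bool, (∀ i ∈ T, y i = x i) → y ∈ A) ∧
      ∀ T' : Finset (Fin n), (T'.card ≤ l ∧ ∀ y : Fin n → Bool, (∀ i ∈ T', y i = x i) → y ∈ A) →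
        rk (trm T x) ≤ rk (trm T' x) := by
    intro x
    by_cases hx : x ∈ A
    · obtain ⟨T, h1, h2⟩ := Set.exists_min_image {T : Finset (Fin n) | T.card ≤ l ∧
        ∀ y : Fin n → Bool, (∀ i ∈ T, y i = x i) → y ∈ A} (fun T => rk (trm T x))
        (Set.toFinite _) (hA x hx)
      exact ⟨T, fun _ => ⟨h1, h2⟩⟩
    · exact ⟨∅, fun h => absurd h hx⟩
  choose S hS using this
  refine ⟨S, fun x hx => (hS x hx).1, fun x hx y hy h1 h2 => ?_⟩
  have key : ∀ x ∈ A, ∀ y ∈ A, (∀ i ∈ S x, y i = x i) → rk (trm (S y) y) ≤ rk (trm (S x) x) := by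
    intro x hx y hy h
    have e : trm (S x) y = trm (S x) x := funext fun i => by
      simp only [trm]
      split_ifs with hi
      · rw [h i hi]
      · rfl
    rw [← e]
    exact (hS y hy).2 _ ⟨(hS x hx).1.1, fun z hz =>
      (hS x hx).1.2 z fun i hi => (hz i hi).trans (h i hi)⟩
  have e := hrk (le_antisymm (key x hx y hy h1) (key y hy x hx fun i hi => (h2 i hi).symm))
  ext i
  have := congrFun e i
  simp only [trm] at this
  split_ifs at this with c1 c2 <;> simp [*]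

lemma num1 {P F t κ β d : ℝ} (hF : 8 ≤ F) (hP : 100 ≤ P) (ht : 6 * P * (F + 1) ≤ t)
    (h1 : κ ≤ β) (h2 : β ≤ 1 / 2250) (hd : d ≤ P / 200) :
    P - 5 * (P / 2) * -F + β * t + d + -((t - κ * t) * Real.log 2) ≤ -(2 * F) - 3 + -d := by
  have h3 := Real.log_two_gt_d9
  have ht0 : 0 ≤ t := le_trans (by positivity) ht
  have h4 : κ * t ≤ 1 / 2250 * t := mul_le_mul_of_nonneg_right (h1.trans h2) ht0
  have h5 : β * t ≤ 1 / 2250 * t := mul_le_mul_of_nonneg_right h2 ht0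
  have h6 : (t - κ * t) * 0.69 ≤ (t - κ * t) * Real.log 2 :=
    mul_le_mul_of_nonneg_left (by linarith) (by linarith)
  have h7 : 100 * F ≤ P * F := mul_le_mul_of_nonneg_right hP (by linarith)
  nlinarith

lemma num2 {F : ℝ} (hF : 8 ≤ F) : 13 * (F + 1) * Real.exp (-F) ≤ 1 := by
  have h1 := Real.quadratic_le_exp_of_nonneg (show 0 ≤ F / 2 by linarith)
  have h2 : Real.exp (F / 2) * Real.exp (F / 2) * Real.exp (-F) = 1 := by
    rw [← Real.exp_add, ← Real.exp_add]; simp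
  rw [← h2]
  refine mul_le_mul_of_nonneg_right (mul_le_mul ?_ ?_ (by linarith) (Real.exp_pos _).le)
    (Real.exp_pos _).le <;> nlinarith

lemma num3 (F : ℝ) : Real.exp (-(2 * F) - 3) ≤ Real.exp (-F) ^ 2 / 16 := by
  have h1 : (16 : ℝ) ≤ Real.exp 3 := by
    have := Real.exp_one_gt_d9
    rw [show (3 : ℝ) = (3 : ℕ) * 1 by norm_num, Real.exp_nat_mul]
    calc (16 : ℝ) ≤ 2.7 ^ 3 := by norm_num
      _ ≤ _ := by gcongr; linarith
  rw [Real.exp_sub, ← Real.exp_nat_mul]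
  push_cast
  rw [show (2 : ℝ) * -F = -(2 * F) by ring]
  gcongr

lemma num4 {w m F t n : ℝ} (h1 : 13 * (F + 1) * w ≤ 1) (h2 : t ≤ 7 * (w * m) * (F + 1))
    (h3 : 2 * m ≤ n) (hm : 0 ≤ m) : 2 * t ≤ n := by
  nlinarith [mul_le_mul_of_nonneg_left h1 hm]

lemma num5 {ε w : ℝ} (h0 : 0 < ε) (h1 : ε ≤ 1 / 2) (h2 : 0 < w) (h3 : w ≤ 1) :
    ε ^ 2 * w ^ 2 / 10 ≤ ε ^ 2 * w / 2 ∧ ε ^ 2 * w ^ 2 / 10 < w ^ 2 / 32 := by
  have h4 : ε ^ 2 ≤ 1 / 4 := by nlinarith
  have h5 : 0 < w ^ 2 := by positivity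
  have h6 : 0 < ε ^ 2 * w := by positivity
  constructor <;> nlinarith

lemma num6 {κ L r t F β : ℝ} (hβ : β = κ * (1 + L)) (hκ : 0 < κ) (hL : 0 ≤ L) (hr : 1 / r ≤ κ)
    (ht : 0 < t) (hF : 8 ≤ F) (h : β * (F + 1) ≤ 1 / 250) :
    κ ≤ β ∧ β ≤ 1 / 2250 ∧ 1 / r * t - κ * t * -L ≤ β * t := by
  have h1 : κ ≤ β := by rw [hβ]; nlinarith
  refine ⟨h1, by nlinarith, ?_⟩
  rw [hβ]
  nlinarith [mul_le_mul_of_nonneg_right hr ht.le]

open Classical in
theorem rect : RectStmt := by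
  intro k0
  obtain ⟨k, hk0, hk⟩ : ∃ k : ℕ, k0 ≤ k ∧ 1 ≤ k := ⟨max k0 1, le_max_left _ _, le_max_right _ _⟩
  obtain ⟨r, g, F, ε, hF, hε, hε', hg, hgr, hr, hch⟩ := H21.chain k hk
  have hr0 : (1 : ℝ) ≤ r := by exact_mod_cast hg.trans hgr
  have hg0 : (1 : ℝ) ≤ g := by exact_mod_cast hg
  have hk1 : (1 : ℝ) ≤ k := by exact_mod_cast hk
  set w := Real.exp (-F) with hw
  have hw0 : 0 < w := Real.exp_pos _
  have hwF : 13 * (F + 1) * w ≤ 1 := num2 hF
  have hw1 : w ≤ 1 := Real.exp_le_one_iff.2 (by linarith)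
  set η := ε ^ 2 * w ^ 2 / 10 with hη
  have hη0 : 0 < η := by positivity
  set Λ : ℝ := 2 * 2 ^ r / η + 1 with hΛ
  have hΛ0 : 0 < Λ := by positivity
  set ρ := Real.exp (-Λ) / 4 with hρ
  have hρ0 : 0 < ρ := by positivity
  have hρ1 : ρ ≤ 1 / 4 := by
    have := Real.exp_le_one_iff.2 (show -Λ ≤ 0 by linarith)
    linarith
  obtain ⟨n₀, hn₀⟩ := exists_nat_ge (100 / (w * ρ))
  refine ⟨r, w * ρ / 200, n₀, by omega, by positivity, fun n hn l hl A hA hcard K hK => ?_⟩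
  have hn1 : 100 ≤ w * ρ * n := by
    have : 100 / (w * ρ) ≤ n := hn₀.trans (by exact_mod_cast hn)
    rwa [div_le_iff₀ (by positivity), mul_comm] at this
  have hn0 : (0 : ℝ) ≤ n := by positivity
  have hn2 : 100 ≤ ρ * n := by
    have := mul_le_mul_of_nonneg_right hw1 (mul_nonneg hρ0.le hn0)
    linarith
  have hn2' := mul_le_mul_of_nonneg_right hρ1 hn0
  have hn3 : (400 : ℝ) ≤ n := by linarith
  have hn4 : 400 ≤ n := by exact_mod_cast hn3
  have hl' : (r : ℝ) * l ≤ k * n := by exact_mod_cast hl.trans (Nat.mul_le_mul_right n hk0)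
  choose S hS1 hS2 using fun j => exists_canon (hA j)
  let X : Finset (Fin n → Bool) := univ.filter fun x => x ∈ ⋂ j, A j
  have hXA : ∀ x ∈ X, ∀ j, x ∈ A j := fun x hx => Set.mem_iInter.1 (mem_filter.1 hx).2
  have hXc : (⋂ j, A j).ncard = X.card := by
    rw [← Set.ncard_coe_finset]; congr 1; ext x; simp [X]
  rw [hXc] at hcard
  have hX0 : (0 : ℝ) < X.card := lt_of_lt_of_le (by positivity) hcard
  have hS : ∀ j, ∀ x ∈ X, ∀ y ∈ X, (∀ i ∈ S j x, y i = x i) → (∀ i ∈ S j y, y i = x i) →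
      S j y = S j x := fun j x hx y hy => hS2 j x (hXA x hx j) y (hXA y hy j)
  have hTs : ∀ E : Finset (Fin n), ∑ i ∈ E, (∑ J, HH X S E J - ∑ J, HH X S (E.erase i) J) -
      ∑ J, HH X S E J = ∑ J, TT X S E J := fun E => by
    simp only [TT_eq, sum_sub_distrib]
    rw [sum_comm, sum_comm (f := fun i J => HH X S (E.erase i) J)]
  have hm₀ : (⌊ρ * n⌋₊ : ℝ) ≤ ρ * n := Nat.floor_le (by positivity)
  have hm₀' : 1 ≤ ⌊ρ * n⌋₊ := Nat.le_floor (by push_cast; linarith)
  have hm₁ : (n : ℝ) / 4 ≤ (n / 2 : ℕ) := by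
    rw [div_le_iff₀ (by norm_num)]
    exact_mod_cast (show n ≤ n / 2 * 4 by omega)
  obtain ⟨E, -, hE1, hE2, hE3, hE4⟩ := scale (univ : Finset (Fin n)) (fun E => ∑ J, HH X S E J)
    (fun i => ∑ x ∈ X, (mu S x i : ℝ)) (2 ^ r * X.card) (η * X.card) (k * X.card) ⌊ρ * n⌋₊ (n / 2)
    (by positivity) (by positivity) hm₀'
    (by
      have : (⌊ρ * n⌋₊ : ℝ) ≤ (n / 2 : ℕ) := by linarith
      exact_mod_cast this)
    (by simpa using Nat.div_le_self n 2)
    (fun E => ⟨sum_nonneg fun J _ => (HH_bounds E J).1,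
      (sum_le_sum fun J _ => (HH_bounds E J).2).trans (by simp [mul_assoc])⟩)
    (fun E => by rw [hTs]; exact sum_nonneg fun J _ => TT_nonneg E J)
    (fun i => sum_nonneg fun _ _ => by positivity)
    (by
      rw [sum_comm, card_univ, Fintype.card_fin, mul_right_comm, mul_comm, ← nsmul_eq_mul,
        ← sum_const]
      refine sum_le_sum fun x hx => le_trans ?_ hl'
      have := sum_mu (S := S) x fun _ => 1
      simp only [mul_one, sum_const, nsmul_eq_mul] at this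
      rw [← this]
      refine (sum_le_sum (g := fun _ => (l : ℝ)) fun j _ => ?_).trans (by simp)
      exact_mod_cast (hS1 j x (hXA x hx j)).1)
    (by
      have h0 : (0 : ℝ) < ⌊ρ * n⌋₊ := by exact_mod_cast hm₀'
      have h1 : Λ ≤ Real.log (n / 2 : ℕ) - Real.log ⌊ρ * n⌋₊ := by
        rw [← Real.log_div (by linarith) h0.ne', Real.le_log_iff_exp_le (div_pos (by linarith) h0),
          le_div_iff₀ h0]
        have h2 : Real.exp Λ * ρ = 1 / 4 := by
          rw [hρ, ← mul_div_assoc, ← Real.exp_add]; simp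
        calc _ ≤ Real.exp Λ * (ρ * n) := by gcongr
          _ = n / 4 := by rw [← mul_assoc, h2]; ring
          _ ≤ _ := hm₁
      have h2 : η * Λ = 2 * 2 ^ r + η := by rw [hΛ]; field_simp
      have h3 := mul_le_mul_of_nonneg_left h1 (mul_pos hη0 hX0).le
      have h4 : η * X.card * Λ = 2 * (2 ^ r * X.card) + η * X.card := by
        rw [mul_right_comm, h2]; ring
      linarith [mul_pos hη0 hX0])
  rw [hTs] at hE3
  rw [sum_comm] at hE4
  have hm1 : ρ * n ≤ E.card := (Nat.lt_floor_add_one _).le.trans (by exact_mod_cast hE1)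
  have hm2 : 2 * E.card ≤ n := by omega
  have hm3 : (2 * E.card : ℝ) ≤ n := by exact_mod_cast hm2
  set m : ℝ := (E.card : ℝ) with hm
  have hm0 : 0 < m := by linarith
  have hwm : w * (ρ * n) ≤ w * m := by gcongr
  have hwm' : 100 ≤ w * m := by linarith
  have hδ : w * ρ / 200 * n ≤ w * m / 200 := by linarith
  have hTT : ∀ J, TT X S E J ≤ η * (X.card * m) := fun J =>
    (single_le_sum (f := fun J => TT X S E J) (fun J _ => TT_nonneg E J) (mem_univ J)).trans
      (by linarith)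
  obtain ⟨J, hJ, hQ⟩ := exists_J hS k g F ε hε hε' hch E (by positivity)
    (QQ_base E _ hcard (by linarith [mul_le_mul_of_nonneg_right hw1 hm0.le]))
    (fun J => (hTT J).trans (mul_le_mul_of_nonneg_right (num5 hε hε' hw0 hw1).1 (by positivity)))
    (by linarith)
  set t := ⌈6 * (w * m) * (F + 1)⌉₊ with ht
  have ht1 : 6 * (w * m) * (F + 1) ≤ t := Nat.le_ceil _
  have ht2 : (t : ℝ) ≤ 7 * (w * m) * (F + 1) := by
    have := (Nat.ceil_lt_add_one (show 0 ≤ 6 * (w * m) * (F + 1) by positivity)).le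
    have := mul_le_mul hwm' (show 1 ≤ F + 1 by linarith) zero_le_one (by linarith)
    linarith
  have ht0 : (0 : ℝ) < t := lt_of_lt_of_le (by positivity) ht1
  have hlr : 0 ≤ Real.log r := Real.log_nonneg hr0
  set κ : ℝ := 8 * g * k / r with hκ
  have hκ0 : 0 < κ := by positivity
  have hκ1 : 1 / (r : ℝ) ≤ κ := by
    rw [hκ]; gcongr
    have := mul_le_mul hg0 hk1 zero_le_one (by linarith)
    linarith
  have hβ : κ * (1 + Real.log r) * (F + 1) ≤ 1 / 250 := by
    rw [hκ, div_mul_eq_mul_div, div_mul_eq_mul_div, div_le_iff₀ (by linarith)]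
    linarith
  set β := κ * (1 + Real.log r) with hβdef
  obtain ⟨hβκ, hβ1, hu⟩ := num6 hβdef hκ0 hlr hκ1 ht0 hF hβ
  rw [← Real.log_inv, ← one_div] at hu
  have hβ0 : 0 ≤ β := by linarith
  have hβt : β * t ≤ 7 * (w * m) / 250 := by
    calc β * t ≤ β * (7 * (w * m) * (F + 1)) := by gcongr
      _ = 7 * (w * m) * (β * (F + 1)) := by ring
      _ ≤ 7 * (w * m) * (1 / 250) := by gcongr
      _ = _ := by ring
  refine final_rect A (fun j x hx => (hS1 j x (hXA x hx j)).2) E J w η (κ * t) (1 / r) K (g * l) t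
    hw0 hw1 (by positivity) (by rw [div_le_one (by linarith)]; exact hr0) (by positivity) hX0 hm0 hm2
    ?_ ?_ ?_ hQ (hTT J) ?_ ?_ ?_
  · have : (2 * t : ℝ) ≤ n := num4 hwF ht2 hm3 hm0.le
    exact_mod_cast this
  · intro x hx
    refine card_biUnion_le.trans ((sum_le_sum (g := fun _ => l) fun j _ =>
      (hS1 j x (hXA x hx j)).1).trans ?_)
    rw [sum_const, card_compl, hJ, Fintype.card_fin, smul_eq_mul, Nat.sub_sub_self hgr]
  · rw [hκ, div_mul_eq_mul_div, div_mul_eq_mul_div, le_div_iff₀ (by linarith)]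
    push_cast
    linarith [mul_le_mul_of_nonneg_left hl' (show (0 : ℝ) ≤ 8 * g * t by positivity)]
  · have h16 : Real.exp (-(2 * F) - 3) ≤ w ^ 2 / 16 := num3 F
    calc _ ≤ Real.exp (w * m - 5 * (w * m / 2) * Real.log w) * (Real.exp (β * t) *
          (Real.exp (w * ρ / 200 * n) * (2 ^ n * Real.exp (-((t - κ * t) * Real.log 2))))) := by
          gcongr
      _ = 2 ^ n * Real.exp (w * m - 5 * (w * m / 2) * Real.log w + β * t + w * ρ / 200 * n +
          -((t - κ * t) * Real.log 2)) := by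
          rw [Real.exp_add, Real.exp_add, Real.exp_add]; ring
      _ ≤ 2 ^ n * Real.exp (-(2 * F) - 3 + -(w * ρ / 200 * n)) := by
          refine mul_le_mul_of_nonneg_left (Real.exp_le_exp.2 ?_) (by positivity)
          rw [hw, Real.log_exp, ← hw]
          exact num1 hF hwm' ht1 hβκ hβ1 hδ
      _ ≤ _ := by
          rw [Real.exp_add, mul_left_comm]
          gcongr
  · rcases Nat.eq_zero_or_pos K with rfl | hK0
    · simp only [Nat.cast_zero, mul_zero, Real.log_zero]; linarith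
    · have hK1 : (0 : ℝ) < K := by exact_mod_cast hK0
      rw [Real.log_mul (Real.exp_pos _).ne' hK1.ne', Real.log_exp]
      have := (Real.log_le_iff_le_exp hK1).2 hK
      linarith
  · exact (num5 hε hε' hw0 hw1).2

end Pool.Agent.MP_6b3410_lc.H75
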