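import Mathlib
import Pool.Agent.MP_6b3410_lc.H75.Rect
import Pool.Agent.MP_6b3410_lc.H71.Hard
import Pool.Agent.MP_6b3410_lc.H48.Gadget4
import Pool.Agent.MP_6b3410_lc.H75.Gram

/-!
The lower bound for networks with read-`k` proof trees.
-/

namespace Pool.Agent.MP_6b3410_lc.H75

open Finset

lemma HasRect.mono {n : ℕ} {X Y : Set (Fin n → Bool)} {K : ℕ} (h : HasRect X K) (hXY : X ⊆ Y) :
    HasRect Y K := by
  obtain ⟨F, G, w, R₁, R₂, h1, h2, h3, h4, h5, h6⟩ := h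
  exact ⟨F, G, w, R₁, R₂, h1, h2, h3, h4, h5, fun u hu v hv => hXY (h6 u hu v hv)⟩

lemma exists_half {n : ℕ} (f : (Fin n → Bool) → Bool) :
    ∃ β, 2 ^ n ≤ 2 * {z | f z = β}.ncard := by
  have h1 := Set.ncard_add_ncard_compl {z | f z = true}
  have h2 : {z | f z = true}ᶜ = {z | f z = false} := by ext z; simp
  rw [h2, Nat.card_eq_fintype_card, Fintype.card_fun, Fintype.card_bool, Fintype.card_fin] at h1
  by_cases h : 2 ^ n ≤ 2 * {z | f z = true}.ncard
  · exact ⟨true, h⟩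
  · exact ⟨false, by omega⟩

theorem bound (k : ℕ) : ∃ c : ℝ, 0 < c ∧ ∃ n₀ : ℕ, ∀ N : ℕ, n₀ ≤ N →
    ∀ (s : ℕ) (I : Fin s → Finset (H19.Edge N ⊕ Fin s)) (o : Fin s)
      (val : (H19.Edge N → Bool) → Fin s → Bool),
      (∀ x g, val x g = true ↔ ∃ u ∈ I g, Sum.elim x (val x) u = false) →
      (∀ x, val x o = true → H19.Ham x) →
      (∀ x, H19.Ham x → ∃ L, ProofTree I x (Sum.inr o) true L ∧ ∀ e, L.count e ≤ k) →
      Real.exp (c * (N : ℝ) ^ (1 / 4 : ℝ)) ≤ s := by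
  obtain ⟨r, δ, n₁, hr, hδ, hR⟩ := rect (8 * k + 1)
  obtain ⟨n₂, hH⟩ := H71.hard δ hδ
  obtain ⟨C, hC⟩ := H48.gadget4
  have hr0 : (0 : ℝ) < r := by exact_mod_cast hr
  set u : ℝ := δ / (4 * r) with hu
  have hu0 : 0 < u := by positivity
  set D : ℕ := C + 1 with hD
  have hD0 : (0 : ℝ) < D := by positivity
  obtain ⟨n₃, hn₃⟩ := exists_nat_ge ((Nat.factorial 9 : ℝ) * (2 * D) ^ 8 / u ^ 9)
  set n₄ := n₁ + n₂ + n₃ + r with hn₄
  refine ⟨u / (2 * D), by positivity, D * n₄ ^ 4, fun N hN s I o val hval h1 h2 => ?_⟩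
  obtain ⟨n, hn1, hn2⟩ : ∃ n : ℕ, D * n ^ 4 ≤ N ∧ N < D * (n + 1) ^ 4 := by
    have hex : ∃ n : ℕ, N < D * (n + 1) ^ 4 := ⟨N, by
      have := Nat.le_self_pow (show 4 ≠ 0 by norm_num) (N + 1)
      nlinarith⟩
    refine ⟨Nat.find hex, ?_, Nat.find_spec hex⟩
    rcases h : Nat.find hex with _ | m
    · simp
    · exact not_lt.1 (Nat.find_min hex (by omega))
  have hn : n₄ ≤ n := by
    have := lt_of_mul_lt_mul_left (hN.trans_lt hn2) (Nat.zero_le _)
    have := lt_of_pow_lt_pow_left₀ 4 (Nat.zero_le _) this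
    omega
  have hn0 : (1 : ℝ) ≤ n := by exact_mod_cast (show 1 ≤ n by omega)
  have hN1 : (N : ℝ) ≤ (2 * D * n) ^ 4 := by
    have e1 : (N : ℝ) ≤ D * (n + 1) ^ 4 := by exact_mod_cast hn2.le
    have e2 : (1 : ℝ) ≤ D := by rw [hD]; push_cast; linarith [Nat.cast_nonneg (α := ℝ) C]
    calc _ ≤ _ := e1
      _ ≤ (D : ℝ) ^ 4 * (2 * n) ^ 4 := by
          gcongr
          · exact le_self_pow₀ e2 (by norm_num)
          · linarith
      _ = _ := by ring
  have hN2 : (N : ℝ) ^ (1 / 4 : ℝ) ≤ 2 * D * n := by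
    calc _ ≤ ((2 * D * n : ℝ) ^ 4) ^ (1 / 4 : ℝ) := by gcongr
      _ = _ := by
          rw [← Real.rpow_natCast, ← Real.rpow_mul (by positivity)]; norm_num
  obtain ⟨c, K, hK, hc⟩ := hH n (by omega)
  obtain ⟨β, hβ⟩ := exists_half (poly c)
  obtain ⟨pr, hpr1, hpr2⟩ := hC n N (by omega) (le_trans (by gcongr; omega) hn1) c β
  obtain ⟨A, hA1, hA2, hA3⟩ := net_decomp I o 4 k r (8 * k * n / r + 1) pr
    {z | poly c z = β} hr (Nat.succ_pos _) (by
      have := Nat.lt_mul_div_succ (8 * k * n) hr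
      nlinarith) (by convert hpr1) (fun z => val (app pr z)) (fun z => hval _)
    (fun z h => (hpr2 z).1 (h1 _ h)) (fun z hz => by convert h2 _ ((hpr2 z).2 hz))
  have key : Real.exp (δ * n) < 2 * (4 * (Fintype.card (H19.Edge N) + s) ^ 2) ^ r := by
    by_contra hcon
    refine hc β ((hR n (by omega) _ ?_ A hA1 ?_ K hK).mono hA2)
    · have := Nat.mul_div_le (8 * k * n) r
      have : r ≤ n := by omega
      nlinarith
    · have e1 : (2 : ℝ) ^ n ≤ 
          2 * ((4 * (Fintype.card (H19.Edge N) + s) ^ 2) ^ r * (⋂ j, A j).ncard) := by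
        exact_mod_cast hβ.trans (Nat.mul_le_mul_left 2 hA3)
      rw [Real.exp_neg, ← div_eq_mul_inv, div_le_iff₀ (Real.exp_pos _), mul_comm]
      refine e1.trans ?_
      rw [← mul_assoc]
      exact mul_le_mul_of_nonneg_right (not_lt.1 hcon) (by positivity)
  have key2 : Real.exp (u * n) * Real.exp (u * n) < 4 * (Fintype.card (H19.Edge N) + s) := by
    refine lt_of_pow_lt_pow_left₀ (2 * r) (by positivity) ?_
    rw [← Real.exp_add, ← Real.exp_nat_mul, show (2 * r : ℕ) * (u * n + u * n) = δ * n by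
      rw [hu]; push_cast; field_simp; ring]
    refine key.trans_le ?_
    rw [pow_mul, show ((4 : ℝ) * (Fintype.card (H19.Edge N) + s)) ^ 2 =
      4 * (4 * (Fintype.card (H19.Edge N) + s) ^ 2) by ring, mul_pow 4 (4 * _)]
    gcongr
    exact le_trans (by norm_num) (le_self_pow₀ (by norm_num) hr.ne')
  have hV : (Fintype.card (H19.Edge N) : ℝ) ≤ (2 * D * n) ^ 8 := by
    have e1 : Fintype.card (H19.Edge N) ≤ N * N := (Fintype.card_subtype_le _).trans (by simp)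
    calc _ ≤ (N : ℝ) * N := by exact_mod_cast e1
      _ ≤ (2 * D * n) ^ 4 * (2 * D * n) ^ 4 := by gcongr
      _ = _ := by ring
  have hE : (2 * D * n : ℝ) ^ 8 ≤ Real.exp (u * n) := by
    refine le_trans ?_ (Real.pow_div_factorial_le_exp _ (by positivity) 9)
    have e1 : (Nat.factorial 9 : ℝ) * (2 * D) ^ 8 / u ^ 9 ≤ n :=
      hn₃.trans (by exact_mod_cast (show n₃ ≤ n by omega))
    rw [div_le_iff₀ (by positivity)] at e1
    rw [le_div_iff₀ (by positivity)]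
    calc _ = (Nat.factorial 9 : ℝ) * (2 * D) ^ 8 * n ^ 8 := by ring
      _ ≤ n * u ^ 9 * n ^ 8 := by gcongr
      _ = _ := by ring
  have h8 : (8 : ℝ) ≤ (2 * D * n) ^ 8 := by
    have e2 : (1 : ℝ) ≤ D := by rw [hD]; push_cast; linarith [Nat.cast_nonneg (α := ℝ) C]
    calc (8 : ℝ) ≤ (2 * 1 * 1) ^ 8 := by norm_num
      _ ≤ _ := by gcongr
  calc _ ≤ Real.exp (u * n) := by
        rw [Real.exp_le_exp]
        calc _ ≤ u / (2 * D) * (2 * D * n) := by gcongr
          _ = _ := by field_simp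
    _ ≤ _ := by nlinarith [Real.exp_pos (u * n)]

end Pool.Agent.MP_6b3410_lc.H75
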