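import Mathlib
import Pool.Agent.MP_6b3410_lc.H75.Rect2
import Pool.Agent.MP_6b3410_lc.H75.Gram2

/-!
The bound `exp (c n)`, from the four statements about the cubic form.
-/

namespace Pool.Agent.MP_6b3410_lc.H75

open Finset

lemma HasRect2.mono {n : ℕ} {X Y : Set (Fin n → Bool)} {K : ℝ} (h : HasRect2 X K) (hXY : X ⊆ Y) :
    HasRect2 Y K := by
  obtain ⟨F, G, w, R₁, R₂, h1, h2, h3, h4, h5, h6⟩ := h
  exact ⟨F, G, w, R₁, R₂, h1, h2, h3, h4, h5, fun u hu v hv => hXY (h6 u hu v hv)⟩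

lemma exists_half2 {n : ℕ} (f : (Fin n → Bool) → ZMod 2) :
    ∃ β, 2 ^ n ≤ 2 * {z | f z = β}.ncard := by
  have h1 := Set.ncard_add_ncard_compl {z | f z = 0}
  have h2 : {z | f z = 0}ᶜ = {z | f z = 1} := by
    ext z
    simp only [Set.mem_compl_iff, Set.mem_ofPred_eq]
    generalize f z = a
    revert a; decide
  rw [h2, Nat.card_eq_fintype_card, Fintype.card_fun, Fintype.card_bool, Fintype.card_fin] at h1
  by_cases h : 2 ^ n ≤ 2 * {z | f z = 0}.ncard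
  · exact ⟨0, h⟩
  · exact ⟨1, by omega⟩

theorem bound2 (hcode : CodeStmt) (hA : HardAStmt) (hB : HardBStmt) (hG : Gadget2Stmt) (k : ℕ) :
    ∃ c : ℝ, 0 < c ∧ ∃ n₀ : ℕ, ∀ N : ℕ, n₀ ≤ N →
    ∀ (s : ℕ) (I : Fin s → Finset (H19.Edge N ⊕ Fin s)) (o : Fin s)
      (val : (H19.Edge N → Bool) → Fin s → Bool),
      (∀ x g, val x g = true ↔ ∃ u ∈ I g, Sum.elim x (val x) u = false) →
      (∀ x, val x o = true → H19.Ham x) →
      (∀ x, H19.Ham x → ∃ L, ProofTree I x (Sum.inr o) true L ∧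
        ∀ T : Finset (H19.Edge N), T.card ≤ N → Multiset.card (L.filter (· ∈ T)) ≤ k * N) →
      Real.exp (c * N) ≤ s := by
  classical
  obtain ⟨c₀, hc₀, hcode⟩ := hcode
  obtain ⟨C₁, hB⟩ := hB c₀ hc₀
  obtain ⟨C₂, hG⟩ := hG
  set D : ℕ := C₂ * (1 + C₁) + 4 with hD
  obtain ⟨r, δ, n₁, hr, hδ, hR⟩ := rect2 (4 * k * D + 1)
  obtain ⟨n₂, hB⟩ := hB δ hδ
  have hr0 : (0 : ℝ) < r := by exact_mod_cast hr
  set u : ℝ := δ / (4 * r) with hu
  have hu0 : 0 < u := by positivity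
  have hD4 : 4 ≤ D := by omega
  have hD0 : (4 : ℝ) ≤ D := by exact_mod_cast hD4
  obtain ⟨n₃, hn₃⟩ := exists_nat_ge ((Nat.factorial 3 : ℝ) * (2 * D) ^ 2 / u ^ 3)
  obtain ⟨n₄, hn₄⟩ := exists_nat_ge (2 / δ)
  set n₅ := n₁ + n₂ + n₃ + n₄ + r with hn₅
  refine ⟨u / (2 * D), by positivity, D * n₅, fun N hN s I o val hval h1 h2 => ?_⟩
  obtain ⟨n, hn1, hn2⟩ : ∃ n : ℕ, D * n ≤ N ∧ N < D * (n + 1) :=
    ⟨N / D, Nat.mul_div_le _ _, Nat.lt_mul_div_succ _ (by omega)⟩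
  have hn : n₅ ≤ n := by
    have := lt_of_mul_lt_mul_left (hN.trans_lt hn2) (Nat.zero_le _)
    omega
  have hn0' : 1 ≤ n := by omega
  have hn0 : (1 : ℝ) ≤ n := by exact_mod_cast hn0'
  have hN1' : N ≤ 2 * D * n := by nlinarith
  have hN1 : (N : ℝ) ≤ 2 * D * n := by exact_mod_cast hN1'
  have hδn : 2 ≤ δ * n := by
    have : 2 / δ ≤ n := hn₄.trans (by exact_mod_cast (show n₄ ≤ n by omega))
    rwa [div_le_iff₀ hδ, mul_comm] at this
  obtain ⟨Enc, hE1, hE2⟩ := hcode n hn0'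
  obtain ⟨ξ, hξ⟩ := hB n (by omega) (2 * n) Enc ⌈δ * n⌉₊ (by omega) hE1 (Nat.le_ceil _)
  obtain ⟨β, hβ⟩ := exists_half2 fun x => cub Enc ξ (tz x)
  have hc := hA n _ _ Enc ξ _ (Real.exp (δ * n)) β hξ
    (by linarith [Real.add_one_lt_exp (show δ * n ≠ 0 by linarith)])
    (by
      have e1 := Nat.ceil_lt_add_one (show 0 ≤ δ * n by linarith)
      have e2 : (17 / 16 : ℝ) ≤ Real.exp (1 / 16) := by linarith [Real.add_one_le_exp (1 / 16 : ℝ)]
      calc _ ≤ Real.exp (1 / 16) ^ (2 * ⌈δ * n⌉₊ + 1) := by gcongr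
        _ < _ := by
          rw [← Real.exp_nat_mul, Real.exp_lt_exp]
          push_cast
          linarith)
  obtain ⟨pr, hpr1, hpr2⟩ := hG n (C₁ * n) N hn0' (le_trans (by nlinarith) hn1) Enc ξ β hE2
  let T : Finset (H19.Edge N) := univ.biUnion fun i => univ.filter fun e => ∃ σ, pr e = Sum.inl (i, σ)
  have hT : T.card ≤ N := by
    refine card_biUnion_le.trans ((sum_le_sum (g := fun _ => 4) fun i _ => ?_).trans ?_)
    · convert hpr1 i
    · simp only [sum_const, card_univ, Fintype.card_fin, smul_eq_mul]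
      nlinarith
  obtain ⟨A, hA1, hA2, hA3⟩ := net_decomp2 I o (k * N) r (4 * k * D * n / r + 1) pr
    {z | cub Enc ξ (tz z) = β} hr (Nat.succ_pos _) (by
      have := Nat.lt_mul_div_succ (4 * k * D * n) hr
      have := Nat.mul_le_mul_left (2 * k) hN1'
      nlinarith) T (fun e p h => mem_biUnion.2 ⟨p.1, mem_univ _, mem_filter.2 ⟨mem_univ _, p.2, h⟩⟩)
    (fun z => val (app pr z)) (fun z => hval _)
    (fun z h => (hpr2 z).1 (h1 _ h)) (fun z hz => by
      obtain ⟨L, e1, e2⟩ := h2 _ ((hpr2 z).2 hz)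
      exact ⟨L, e1, by convert e2 T hT⟩)
  have key : Real.exp (δ * n) < 2 * (4 * (Fintype.card (H19.Edge N) + s) ^ 2) ^ r := by
    by_contra hcon
    refine hc ((hR n (by omega) _ ?_ A hA1 ?_).mono hA2)
    · have := Nat.mul_div_le (4 * k * D * n) r
      have : r ≤ n := by omega
      nlinarith
    · have e1 : (2 : ℝ) ^ n ≤
          2 * ((4 * (Fintype.card (H19.Edge N) + s) ^ 2) ^ r * (⋂ j, A j).ncard) := by
        exact_mod_cast hβ.trans (Nat.mul_le_mul_left 2 hA3)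
      rw [Real.exp_neg, ← div_eq_mul_inv, div_le_iff₀ (Real.exp_pos _), mul_comm]
      refine e1.trans ?_
      rw [← mul_assoc]
      exact mul_le_mul_of_nonneg_right (not_lt.1 hcon) (by positivity)
  have key2 : Real.exp (u * n) * Real.exp (u * n) < 4 * (Fintype.card (H19.Edge N) + s) := by
    refine lt_of_pow_lt_pow_left₀ (2 * r) (by positivity) ?_
    rw [← Real.exp_add, ← Real.exp_nat_mul, show (2 * r : ℕ) * (u * n + u * n) = δ * n by
      rw [hu]; push_cast; field_simp; ring]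
    refine key.trans_le ?_
    rw [pow_mul, show ((4 : ℝ) * (Fintype.card (H19.Edge N) + s)) ^ 2 =
      4 * (4 * (Fintype.card (H19.Edge N) + s) ^ 2) by ring, mul_pow 4 (4 * _)]
    gcongr
    exact le_trans (by norm_num) (le_self_pow₀ (by norm_num) hr.ne')
  have hV : (Fintype.card (H19.Edge N) : ℝ) ≤ (2 * D * n) ^ 2 := by
    have e1 : Fintype.card (H19.Edge N) ≤ N * N := (Fintype.card_subtype_le _).trans (by simp)
    calc _ ≤ (N : ℝ) * N := by exact_mod_cast e1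
      _ ≤ (2 * D * n) * (2 * D * n) := by gcongr
      _ = _ := by ring
  have hE : (2 * D * n : ℝ) ^ 2 ≤ Real.exp (u * n) := by
    refine le_trans ?_ (Real.pow_div_factorial_le_exp _ (by positivity) 3)
    have e1 : (Nat.factorial 3 : ℝ) * (2 * D) ^ 2 / u ^ 3 ≤ n :=
      hn₃.trans (by exact_mod_cast (show n₃ ≤ n by omega))
    rw [div_le_iff₀ (by positivity)] at e1
    rw [le_div_iff₀ (by positivity)]
    calc _ = (Nat.factorial 3 : ℝ) * (2 * D) ^ 2 * n ^ 2 := by ring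
      _ ≤ n * u ^ 3 * n ^ 2 := by gcongr
      _ = _ := by ring
  have h8 : (8 : ℝ) ≤ (2 * D * n) ^ 2 := by
    calc (8 : ℝ) ≤ (2 * 4 * 1) ^ 2 := by norm_num
      _ ≤ _ := by gcongr
  calc _ ≤ Real.exp (u * n) := by
        rw [Real.exp_le_exp]
        calc _ ≤ u / (2 * D) * (2 * D * n) := by gcongr
          _ = _ := by field_simp
    _ ≤ _ := by nlinarith [Real.exp_pos (u * n)]

end Pool.Agent.MP_6b3410_lc.H75
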